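import Pool.Agent.MP_3bf126_pr.H16.Step

/-! One step of a finite-state controller. -/

namespace Pool.Agent.MP_3bf126_pr.H16
open MeasureTheory Set H40
open scoped ENNReal
noncomputable section

structure Gr where
  J : ℕ
  y : ℕ → ℝ
  y0 : y 0 = 0
  mono : ∀ i j, i ≤ j → j ≤ J → y i ≤ y j
  last : y (J + 1) = 0

def gs (φ : ℕ → ℕ → ℕ → ℝ) (q J : ℕ) : ℕ → List (ℕ × ℕ) → ℝ
  | st, [] => φ q st (J + 1)
  | st, p :: l => φ p.1 st p.2 + gs φ q J p.2 l

def OK (K J : ℕ) : ℕ → List (ℕ × ℕ) → Prop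
  | st, [] => st ≤ J
  | st, p :: l => p.1 < K ∧ st ≤ p.2 ∧ OK K J p.2 l

lemma OK.le {K J st : ℕ} {l : List (ℕ × ℕ)} (h : OK K J st l) : st ≤ J := by
  induction l generalizing st with
  | nil => exact h
  | cons p l ih => exact h.2.1.trans (ih h.2.2)

def nxt (z : ℕ → ℝ) (q : ℕ) : List (ℕ × ℕ) → ℝ → ℕ
  | [], _ => q
  | p :: l, y => if y < z p.2 then p.1 else nxt z q l y

lemma meas_nxt (z : ℕ → ℝ) (q : ℕ) (l : List (ℕ × ℕ)) : Measurable (nxt z q l) := by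
  induction l with
  | nil => exact measurable_const
  | cons p l ih =>
    exact Measurable.ite (measurableSet_lt measurable_id measurable_const) measurable_const ih

lemma gs_smul (c : ℝ) (φ : ℕ → ℕ → ℕ → ℝ) (q J st : ℕ) (l : List (ℕ × ℕ)) :
    gs (fun k a e => c * φ k a e) q J st l = c * gs φ q J st l := by
  induction l generalizing st with
  | nil => rfl
  | cons p l ih => simp only [gs, ih, mul_add]

lemma gs_sum {ι : Type} (s : Finset ι) (φ : ι → ℕ → ℕ → ℕ → ℝ) (q J st : ℕ) (l : List (ℕ × ℕ)) :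
    gs (fun k a e => ∑ i ∈ s, φ i k a e) q J st l = ∑ i ∈ s, gs (φ i) q J st l := by
  induction l generalizing st with
  | nil => rfl
  | cons p l ih => simp only [gs, ih, Finset.sum_add_distrib]

namespace Gr
variable (g : Gr) (δ : ℝ)

def z (j : ℕ) : ℝ := if j ≤ g.J then δ * g.y j else 1

def EB {r : ℕ} (T : Rule r) (j : ℕ) : ℝ≥0∞ := ∫⁻ v in Ico (g.z δ j) (g.z δ (j + 1)), EF T v

def Ach (r K : ℕ) (W : ℕ → ℕ → ℝ) : Prop := ∃ T : ℕ → Rule r, ∀ q < K,
  (∀ i ≤ g.J + 1, 0 ≤ W q i) ∧ EA (T q) ≤ ENNReal.ofReal (W q 0) ∧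
    ∀ j ≤ g.J, g.EB δ (T q) j ≤ ENNReal.ofReal (δ * W q (j + 1))

def L (W : ℕ → ℕ → ℝ) (q a : ℕ) (l : List (ℕ × ℕ)) (i : ℕ) : ℝ :=
  gs (fun k st e => (g.y e - g.y st) * W k i +
    if i = 0 then ∑ j ∈ Finset.Ico st e, W k (j + 1) else 0) q g.J a l

def s0 (a i : ℕ) : ℝ :=
  if i = 0 then g.y a else if i ≤ a then (g.y i - g.y (i - 1)) * (g.y a - (g.y (i - 1) + g.y i) / 2)
  else 0

def s1 (a i : ℕ) : ℝ := if i = 0 then g.y a ^ 2 / 2 else 0

variable {g δ}

lemma y_nonneg {j : ℕ} (h : j ≤ g.J) : 0 ≤ g.y j := g.y0 ▸ g.mono 0 j j.zero_le h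

lemma z_le {j : ℕ} (h : j ≤ g.J) : g.z δ j = δ * g.y j := if_pos h
lemma z_top : g.z δ (g.J + 1) = 1 := if_neg (by omega)

lemma Ach.mono {r K : ℕ} {W W' : ℕ → ℕ → ℝ} (hδ : 0 ≤ δ) (h : g.Ach δ r K W)
    (H : ∀ q < K, ∀ i ≤ g.J + 1, W q i ≤ W' q i) : g.Ach δ r K W' := by
  obtain ⟨T, h⟩ := h
  refine ⟨T, fun q hq => ?_⟩
  obtain ⟨a, b, c⟩ := h q hq
  refine ⟨fun i hi => (a i hi).trans (H q hq i hi),
    b.trans (ENNReal.ofReal_le_ofReal (H q hq 0 (by omega))),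
    fun j hj => (c j hj).trans (ENNReal.ofReal_le_ofReal ?_)⟩
  exact mul_le_mul_of_nonneg_left (H q hq _ (by omega)) hδ

lemma Ach.map {r K K' : ℕ} {W : ℕ → ℕ → ℝ} (h : g.Ach δ r K W) (s : ℕ → ℕ)
    (H : ∀ q < K', s q < K) : g.Ach δ r K' fun q => W (s q) :=
  let ⟨T, h⟩ := h
  ⟨fun q => T (s q), fun q hq => h _ (H q hq)⟩

variable (hδ : 0 ≤ δ) (hJ : δ * g.y g.J ≤ 1)
include hδ hJ

lemma z_mono {i j : ℕ} (h : i ≤ j) : g.z δ i ≤ g.z δ j := by
  unfold z
  split_ifs with a b b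
  · exact mul_le_mul_of_nonneg_left (g.mono i j h b) hδ
  · exact (mul_le_mul_of_nonneg_left (g.mono i _ a le_rfl) hδ).trans hJ
  · omega
  · rfl

lemma z_nonneg (j : ℕ) : 0 ≤ g.z δ j := by
  have := z_mono hδ hJ j.zero_le
  rwa [z_le (Nat.zero_le _), g.y0, mul_zero] at this

lemma z_le_one {j : ℕ} (h : j ≤ g.J + 1) : g.z δ j ≤ 1 := z_top (g := g) (δ := δ) ▸ z_mono hδ hJ h

lemma lint_gs {K q : ℕ} (hq : q < K) {H : ℕ → ℝ → ℝ≥0∞} {φ : ℕ → ℕ → ℕ → ℝ}
    (hφ : ∀ k < K, ∀ st e, st ≤ e → e ≤ g.J + 1 → 0 ≤ φ k st e ∧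
      ∫⁻ y in Ico (g.z δ st) (g.z δ e), H k y ≤ ENNReal.ofReal (φ k st e))
    {st : ℕ} {l : List (ℕ × ℕ)} (h : OK K g.J st l) : 0 ≤ gs φ q g.J st l ∧
      ∫⁻ y in Ico (g.z δ st) 1, H (nxt (g.z δ) q l y) y ≤ ENNReal.ofReal (gs φ q g.J st l) := by
  induction l generalizing st with
  | nil => exact z_top (g := g) (δ := δ) ▸ hφ q hq st _ (h.le.trans (by omega)) le_rfl
  | cons p l ih =>
    obtain ⟨a, b⟩ := ih h.2.2
    have e := h.2.2.le
    obtain ⟨c, d⟩ := hφ p.1 h.1 st p.2 h.2.1 (by omega)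
    refine ⟨add_nonneg c a, ?_⟩
    rw [gs, ENNReal.ofReal_add c a, ← Ico_union_Ico_eq_Ico (z_mono hδ hJ h.2.1)
      (z_le_one hδ hJ (by omega)), lintegral_union measurableSet_Ico Ico_disjoint_Ico_same]
    refine add_le_add (le_of_eq_of_le ?_ d) (le_of_eq_of_le ?_ b)
    · exact setLIntegral_congr_fun measurableSet_Ico fun y hy => by simp only [nxt, if_pos hy.2]
    · exact setLIntegral_congr_fun measurableSet_Ico fun y hy => by
        simp only [nxt, if_neg (not_lt.2 hy.1)]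

omit hδ hJ in
lemma gs_z {K q : ℕ} (w : ℕ → ℝ) (ψ : ℕ → ℕ → ℕ → ℝ) {st : ℕ} {l : List (ℕ × ℕ)}
    (h : OK K g.J st l) : gs (fun k a e => (g.z δ e - g.z δ a) * w k + δ * ψ k a e) q g.J st l =
      w q + δ * gs (fun k a e => (g.y e - g.y a) * w k + ψ k a e) q g.J st l := by
  induction l generalizing st with
  | nil => simp only [gs, z_top, z_le h.le, g.last]; ring
  | cons p l ih => simp only [gs, ih h.2.2, z_le h.le, z_le h.2.2.le]; ring

lemma lint_cells {r : ℕ} (T : Rule r) {st e : ℕ} (h : st ≤ e) :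
    ∫⁻ y in Ico (g.z δ st) (g.z δ e), EF T y = ∑ j ∈ Finset.Ico st e, g.EB δ T j := by
  induction e, h using Nat.le_induction with
  | base => simp
  | succ e h ih =>
    rw [Finset.sum_Ico_succ_top h, ← ih, ← Ico_union_Ico_eq_Ico (z_mono hδ hJ h)
      (z_mono hδ hJ e.le_succ), lintegral_union measurableSet_Ico Ico_disjoint_Ico_same, EB]

omit hδ hJ in
lemma s0_nonneg {a i : ℕ} (ha : a ≤ g.J) : 0 ≤ g.s0 a i := by
  unfold s0
  split_ifs with h h'
  · exact y_nonneg ha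
  · have := g.mono (i - 1) i (by omega) (by omega)
    have := g.mono i a h' ha
    exact mul_nonneg (by linarith) (by linarith)
  · rfl

lemma lint_s0 {a j : ℕ} (ha : a ≤ g.J) :
    ∫⁻ v in Ico (g.z δ j) (g.z δ (j + 1)), ENNReal.ofReal (g.z δ a - v) =
      ENNReal.ofReal (δ * (δ * g.s0 a (j + 1))) := by
  by_cases h : j + 1 ≤ a
  · have h1 := z_mono hδ hJ h
    have h2 := z_mono hδ hJ j.le_succ
    have := lint_lin (α := g.z δ a) (β := -1) h2 (by linarith) (by linarith)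
    simp only [neg_mul, one_mul, ← sub_eq_add_neg] at this
    rw [this, s0, if_neg (by omega), if_pos h, z_le ha, z_le (h.trans ha), z_le (by omega : j ≤ g.J),
      Nat.add_sub_cancel]
    congr 1
    ring
  · rw [s0, if_neg (by omega), if_neg h, mul_zero, mul_zero, ENNReal.ofReal_zero]
    refine setLIntegral_eq_zero measurableSet_Ico fun v hv => ?_
    have := z_mono hδ hJ (show a ≤ j by omega)
    exact ENNReal.ofReal_of_nonpos (by linarith [hv.1])

theorem Ach.step {r K : ℕ} {W : ℕ → ℕ → ℝ} (h : g.Ach δ r K W) (a : ℕ → ℕ)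
    (l : ℕ → List (ℕ × ℕ)) (hl : ∀ q < K, OK K g.J (a q) (l q)) {t : ℝ} (ht : r * δ ≤ t) :
    g.Ach δ (r + 1) K fun q i =>
      W q i + δ * (g.L W q (a q) (l q) i + g.s0 (a q) i + t * g.s1 (a q) i) := by
  obtain ⟨T, h⟩ := h
  refine ⟨fun q => comp (g.z δ (a q)) _ (meas_nxt (g.z δ) q (l q)) T, fun q hq => ?_⟩
  have ha := (hl q hq).le
  have z0 := z_nonneg hδ hJ (a q)
  have z1 := z_le_one hδ hJ (show a q ≤ g.J + 1 by omega)
  have t0 : 0 ≤ t := (mul_nonneg (Nat.cast_nonneg r) hδ).trans ht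
  have hA := lint_gs hδ hJ hq (H := fun k y => EA (T k) + EF (T k) y)
    (φ := fun k st e => (g.z δ e - g.z δ st) * W k 0 + δ * ∑ j ∈ Finset.Ico st e, W k (j + 1))
    (fun k hk st e h1 h2 => by
      obtain ⟨b, c, d⟩ := h k hk
      have m := sub_nonneg.2 (z_mono hδ hJ h1)
      have n : ∀ j ∈ Finset.Ico st e, 0 ≤ δ * W k (j + 1) := fun j hj =>
        mul_nonneg hδ (b _ (by have := Finset.mem_Ico.1 hj; omega))
      have p := mul_nonneg m (b 0 (by omega))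
      rw [Finset.mul_sum]
      refine ⟨add_nonneg p (Finset.sum_nonneg n), ?_⟩
      rw [lintegral_add_left measurable_const, lint_cells hδ hJ _ h1, setLIntegral_const,
        Real.volume_Ico, ENNReal.ofReal_add p (Finset.sum_nonneg n), ENNReal.ofReal_sum_of_nonneg n,
        ENNReal.ofReal_mul m, mul_comm]
      exact add_le_add (by gcongr) (Finset.sum_le_sum fun j hj =>
        d j (by have := Finset.mem_Ico.1 hj; omega))) (hl q hq)
  have hB : ∀ j ≤ g.J, _ := fun j hj => lint_gs hδ hJ hq (H := fun k _ => g.EB δ (T k) j)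
    (φ := fun k st e => δ * ((g.z δ e - g.z δ st) * W k (j + 1) + δ * 0))
    (fun k hk st e h1 h2 => by
      obtain ⟨b, c, d⟩ := h k hk
      have m := sub_nonneg.2 (z_mono hδ hJ h1)
      rw [mul_zero, add_zero]
      refine ⟨mul_nonneg hδ (mul_nonneg m (b _ (by omega))), ?_⟩
      rw [setLIntegral_const, Real.volume_Ico, mul_left_comm, ENNReal.ofReal_mul m, mul_comm]
      gcongr
      exact d j hj) (hl q hq)
  have hN : ∀ i, 0 < i → i ≤ g.J + 1 → _ := fun i h0 hi => (lint_gs hδ hJ hq (H := fun _ _ => 0)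
    (φ := fun k st e => (g.z δ e - g.z δ st) * W k i + δ * 0)
    (fun k hk st e h1 h2 => ⟨by
      rw [mul_zero, add_zero]
      exact mul_nonneg (sub_nonneg.2 (z_mono hδ hJ h1)) ((h k hk).1 i hi), by simp⟩) (hl q hq)).1
  simp only [gs_smul, gs_z _ _ (hl q hq)] at hA hB hN
  have s0n : ∀ i, 0 ≤ δ * g.s0 (a q) i := fun i => mul_nonneg hδ (s0_nonneg ha)
  have s1n : 0 ≤ δ * (t * (g.y (a q) ^ 2 / 2)) := by positivity
  refine ⟨fun i hi => ?_, ?_, fun j hj => ?_⟩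
  · have := s0n i
    rcases Nat.eq_zero_or_pos i with rfl | h0
    · simp only [L, s1, if_true]
      linarith [hA.1]
    · simp only [L, s1, if_neg h0.ne']
      linarith [hN i h0 hi]
  · rw [EA_comp _ _ z0 z1, lint_lin z0 (by simp) (by positivity)]
    refine (add_le_add le_rfl hA.2).trans ?_
    rw [← ENNReal.ofReal_add (by positivity) hA.1]
    apply ENNReal.ofReal_le_ofReal
    simp only [L, s0, s1, if_true, z_le ha]
    have := mul_le_mul_of_nonneg_left ht (show 0 ≤ δ * g.y (a q) ^ 2 / 2 by positivity)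
    linarith
  · have e : g.EB δ (comp (g.z δ (a q)) _ (meas_nxt (g.z δ) q (l q)) T) j =
        ∫⁻ v in Ico (g.z δ j) (g.z δ (j + 1)), (ENNReal.ofReal (g.z δ (a q) - v) +
          ∫⁻ y in Ico (g.z δ (a q)) 1, EF (T (nxt (g.z δ) q (l q) y)) v) :=
      setLIntegral_congr_fun measurableSet_Ico fun v hv =>
        EF_comp _ _ z0 z1 ((z_nonneg hδ hJ j).trans hv.1)
    have m1 : Measurable fun p : ℝ × ℕ => EF (T p.2) p.1 :=
      measurable_from_prod_countable_left fun k => meas_EF (T k)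
    have m2 : Measurable fun p : ℝ × ℝ => EF (T (nxt (g.z δ) q (l q) p.2)) p.1 :=
      m1.comp (measurable_fst.prodMk ((meas_nxt _ _ _).comp measurable_snd))
    rw [e, lintegral_add_left (by fun_prop), lint_s0 hδ hJ ha,
      lintegral_lintegral_swap m2.aemeasurable]
    refine (add_le_add le_rfl (hB j hj).2).trans ?_
    rw [← ENNReal.ofReal_add (mul_nonneg hδ (s0n _)) (hB j hj).1]
    apply ENNReal.ofReal_le_ofReal
    simp only [L, s1, if_neg j.succ_ne_zero]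
    linarith

end Gr

end
end Pool.Agent.MP_3bf126_pr.H16
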