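import Pool.Agent.MP_3bf126_pr.H16.Dat1

namespace Pool.Agent.MP_3bf126_pr.H16
open H40

def sl1 : List Slab := [⟨2730, 33847831, [13824, 13824]⟩,
  ⟨3004, 43638099, [13568, 13569, 905983232, 905983232]⟩,
  ⟨3004, 38635454, [59378812400640, 13568, 889598977, 59378812072961, 889336834, 13315, 59387402335232]⟩,
  ⟨3277, 46970099, [59391697302531, 59400286909443, 889598977, 889598977, 59383107105795, 59378812728323, 889467905, 59417450590980, 906310661, 3892575762280690436, 906507268]⟩,
  ⟨3276, 30962817, [3892575727920624388, 59413155099145, 59391680656135, 3892575762280493825, 59387402400517, 872690435, 59395992204033, 59391680787209, 59374517367552, 59383090852617]⟩,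
  ⟨3550, 47615798, [59400270590473, 59383107760645, 58309349159685, 906703620, 59408877040389, 57218409968134, 59395975164423, 12801, 59383107760901, 57196935787012, 59400270590471, 59391697171200]⟩,
  ⟨3550, 31459428, [58283578962434, 3893701653581017605, 3891168361627070978, 57222688813322, 3893419079092679177, 59374517432843, 3893701644991083017, 255159114456263387459846, 58300742513157, 3891168374495261185, 3892011729961562375, 12807, 3891449862374044166]⟩,
  ⟨4096, 57556900, [3892010587500261640, 255103774224007899132162, 59413155164428, 255196076625374587531524, 59387368583430, 3891448780008141056, 906113287, 59383057101059, 3748739845829898503, 57184033845508, 3891448780024918281, 12547, 839135493]⟩,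
  ⟨4096, 99229630, [255214524775745110290442, 255196077469812386443271, 255085254013857150283785, 3748738720531755016, 59413105225731, 839463173, 822161410, 16724530151508369705413980166, 57179722493960, 12548, 16712441003920347695988617225, 3892573567501611009, 59408844075016]⟩,
  ⟨4096, 144659296, [255048430614104212844554, 255196004848155998367752, 3892575775114932228, 1095424668383702863406263192596234, 3891167283539881991, 3893417975252135936, 1095662664778700429170855957835786, 59391629930502, 3750428712852926475, 3892290958637215500, 856239884, 3894546061347270665, 54984993419269]⟩]

theorem blk1 : block 54 YP 3358744 st0 sl1 5439484 st1 = true := by decide +kernel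

end Pool.Agent.MP_3bf126_pr.H16
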