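import Pool.Agent.MP_3bf126_pr.H16.Dat4
import Pool.Agent.MP_3bf126_pr.H16.Blk1

namespace Pool.Agent.MP_3bf126_pr.H16
open H40

def sl4 : List Slab := [⟨6281, 439046702, [3750986122214386177, 59464560552464, 255158823123026651261452, 52833130981892, 907422233, 3897632476218403093, 10521, 59460283083540, 255048436518460078696978, 255269287413587283094026, 1095265603954948807252213829937672, 16735396279607668270820502040, 59447498844938, 16730575020344589316961151755, 50591158118922, 3895668684077476608, 3895951314400389894, 255288168194351446436627, 255214096082736952781333, 3897070565663713809, 755772180, 3891441040359696912, 240918085602869569137177, 255361598822187584989723]⟩,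
  ⟨6553, 1699625753, [16726934241444167836531829248, 255472206665055042939412, 3894821029349435659, 308646933288951843386763701718332445276289378570, 1095266221716116351157410284251392, 59468840184322, 250620857935391281719809, 59421611338254, 255343080300886679693582, 59395825740309, 857221380, 255343152359567377377793, 3682024864573565449, 3819665015771638039, 15499855534320805315293030661, 308802862918269418974913411185379097235728181514, 15783971954575026593760356874, 10246, 56123076454926, 236583023897403032545812, 907553028, 3894820973481306373, 3894254720680012289, 4705493732211627724104486116975275324287242, 10518, 59455989033479, 3896226136456178190, 3608280619697973773]⟩,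
  ⟨7100, 1751974305, [3893136478700775682, 48460804466701, 1096058496082834135002736470862088, 3245734244002048014, 255047927610594068605188, 255325205232452015302918, 3897633507028052236, 49568957016322, 3892288776693950723, 16742640408168201642463733777, 16095846149574912235266582551, 3891440013829285909, 16716048909787193809103366158, 212915495465333522180364, 16725720131948727768162707470, 16723307261215819492469254161, 255287811001484997437457, 53898250627344, 50659845089297, 10520, 3895951249925155078, 59404465678602, 255122079942602693880076, 55002090908179, 16111586092572767188187358993, 3894545034666584088, 1095582515400617945999389687162895]⟩]

theorem blk4 : block 54 YP 7634944 st3 sl4 8830984 st4 = true := by decide +kernel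

end Pool.Agent.MP_3bf126_pr.H16
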