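import Pool.Agent.MP_3bf126_pr.H16.Dat7
import Pool.Agent.MP_3bf126_pr.H16.Blk4

namespace Pool.Agent.MP_3bf126_pr.H16
open H40

def sl7 : List Slab := [⟨9284, 7788338319, [3102461260324087059, 3318915543167411206, 250620498201596294210306, 2883471456372204545, 9239, 16430700099240971763257451536, 207879319845898354369536, 3176206608990086400, 250362172290989738370068, 889922582, 2959752369078674695, 231565227748465562035202, 16412575287739770041155658756, 16405317213374287836942050070, 45166514087177, 51767912899846, 58356393387534, 207971624496964601521415, 16405369380690810410718601986, 3821912383129069063, 638526737, 3680609741485778179, 16418648269774530734089184010, 12713253203922890920781161488, 13639304382896535984572933124, 58334935328265, 250565445357542640854278]⟩,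
  ⟨9557, 2399503470, [227008589789060190249746, 14564137431054342059940389638, 45102089577478, 48439296926727, 3105556312507950080, 638002177, 3752397963797603598, 45102106354691, 69177823950118039627137126736608109058, 69188270263208412617787914751602139906, 46210175279896, 245566016578908750422530, 16093428629689685954337252098, 231565440544570157638422, 638985492, 212804523387261899907846, 2883751849000837893, 3752391366744614158, 3605736336789414680, 3748731092518970638, 9491, 604840713, 621224986, 2960033809695974673, 3461621148714083083, 45140744021006]⟩,
  ⟨10377, 5296131057, [1036160764854824881814386554184463, 2742169987254657797, 13958437408586293277012533771, 193638214711716417970946, 15815356488122244077796336394, 15812939097578995040140730892, 1036238155426204729941735548199425, 9238, 15786337970282154152363041288, 15793610008768721652369924360, 2957782022749889559, 44045510583044, 3677799376930219027, 49495841841944, 3247981598440825607, 45110646743811, 2882626000632685328, 855974413, 50634008175381, 241101904794606128734983, 638002193, 56183156450580, 212804522260314020717313, 67791582338313470496591502146241307151, 15790007285935082718710014476, 3680902254611997972, 226750120042545774928402]⟩]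

theorem blk7 : block 54 YP 11239444 st6 sl7 12992524 st7 = true := by decide +kernel

end Pool.Agent.MP_3bf126_pr.H16
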