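import Pool.Agent.MP_3bf126_pr.H16.Dat10
import Pool.Agent.MP_3bf126_pr.H16.Blk7

namespace Pool.Agent.MP_3bf126_pr.H16
open H40

def sl10 : List Slab := [⟨13654, 1539480622, [811387088806948593752696594701824, 175117467765998187454232, 2890786520049459201, 42941687144730, 751093525042267918808660431215891, 11770262785331337080694316546, 571678726, 2886284002753912854, 2527117611701313027, 41863601528843, 2888254357656117002, 45183610920468, 179692191897888880271116, 39690331234066, 605954052, 2670672018799075083, 2671516495269076741, 179692263111075168788231, 35270793043473, 555294725, 2885436356565605908, 39651692584718, 14581039056827136254391688222, 39668856331803, 2818166053350874897, 8213, 222525675187111590698253, 587407625, 208026606124580644331287, 3395472338653748510, 39608743305224, 222433224449514524318989]⟩,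
  ⟨14472, 324512579, [11779934173446856939641969924, 2816196763617402634, 2889661706768817927, 2889379145165905666, 174969820910341554052623, 2813660173097049873, 42988948824070, 57157555546107769896409676020945525764, 12400127249251921226978434560, 2597771082195541769, 38607999475208, 189265976071684172225562, 538779405, 36335945326096, 2530495285635063063, 572268827, 165709416335536911817992, 11476498164594894732539338241, 2741040831712992773, 2741603781632859660, 3322292117490572573, 170247382369834921238037, 2525145087807462422, 2314321404010110226, 39707544657428, 587603998, 39690329726734, 47365404433695, 588849155, 521674264, 170431925244744773082388]⟩]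

theorem blk10 : block 54 YP 16531444 st9 sl10 18219004 st10 = true := by decide +kernel

end Pool.Agent.MP_3bf126_pr.H16
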