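import Pool.Agent.MP_3bf126_pr.H16.Dat2

namespace Pool.Agent.MP_3bf126_pr.H16
open H40

def sl2 : List Slab := [⟨4642, 114387813, [59395942199040, 255232970956877473001224, 3891167292113235721, 53924120047372, 59374467362560, 3894262400165097216, 255159183137248593260297, 59400253812489, 255030057336068888473347, 806170369, 255159113893296204295690, 59387368779522, 3747895438062399240, 59413088775937]⟩,
  ⟨4642, 340870448, [16737823705245560831683341829, 59387352723205, 3894546099952561672, 3607436096051424772, 3897078266674228997, 3891729151178976776, 16718485559161637691909418504, 16723321539140975779144674828, 255177563731447190204163, 3896795666400161541, 255158970619286062771724, 16728152483160306651443047940, 16724530151439969099901709836, 255380472849695529709312, 3894262447427628546, 53949873729034, 806432265, 3896233871759453703, 3893698397945802240, 3892008448573058820, 3893420238733258507, 255177561479651671617291]⟩,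
  ⟨4916, 368235467, [3894542754138959376, 255122292743088240471566, 255251276116791579782656, 3678650399030390282, 1095503902586031480652008188882183, 255066881015175038512650, 3895107903132675601, 255177559791858356792591, 3894541654627855872, 56118831688966, 236324769203204024380689, 59374417096209, 788540937, 822488596, 3894261279162773006]⟩,
  ⟨5188, 523755755, [16717267409826713211413277956, 3896230577502235912, 3897074938008644871, 1097009253385244923285689269169417, 16730565667698130287130258691, 16722103149998378434913971468, 16728156910522158386218741001, 788671751, 3894539477063249165, 255343367127186549648648, 255122222934004038184202, 16728147594558359460585024521, 255159184539155950021900, 255011540785144325942537, 1075855329158251438560296647404551, 3677242994081737987, 806432256, 3892571381330750728, 255159185670570629016838, 53954152312074, 3751550240432925964, 255196009910320349981959, 255288171011218665450757, 16717276799507678252499545349]⟩]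

theorem blk2 : block 54 YP 5439484 st1 sl2 6602764 st2 = true := by decide +kernel

end Pool.Agent.MP_3bf126_pr.H16
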