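import Pool.Agent.MP_3bf126_pr.H16.Dat5
import Pool.Agent.MP_3bf126_pr.H16.Blk2

namespace Pool.Agent.MP_3bf126_pr.H16
open H40

def sl5 : List Slab := [⟨7100, 1393939367, [222304888480322348460033, 10256, 255176981916051668543244, 255085185050310206629896, 255343219910319036966920, 49560316291079, 3896234928219957253, 1095899749610757402027837568591898, 241175904289967370676250, 231398987502346872694539, 52803032918289, 217545699160585295570957, 1096532315200962412535121983907843, 59447397722390, 59464494229264, 16723292816983701981292799758, 59374333339659, 48435068283142, 3894261304848099332, 688662547, 47339801945880, 3895102409735546640]⟩,
  ⟨7645, 2294266939, [10259, 56140273625099, 3535656669781239811, 3534248255499151113, 16726905722559682410861176592, 59387201857295, 1095978034815965342970348414117378, 3751265423887312913, 222212653350379877836551, 16724520725004840613091943938, 16718462020897486924317599503, 45157957969428, 3894823129503770368, 48379183965957, 3463596923947329283, 3896788021206460433, 689055507, 3897077201371146246, 9998, 1095581282277392254720471450396428, 722413585, 51682063034379]⟩,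
  ⟨8192, 2691966359, [3462469868678358803, 255287517981627537958669, 212527969159465714853646, 255103126821652824925701, 255195790919567160714758, 255066305391099443750410, 3460780018090845967, 689383431, 255417223621246414956305, 3675829022028277257, 255472492079538899133958, 71872807851126868455702248763457349126, 16103104777273472728425113346, 16713616964758367057932723972, 16725710853166088814159078662, 45149367314189, 16418638806517699032393983748, 9746, 9483, 236268924841641579980546, 3895377283330156045, 994010145651937392848622323967496, 3172832199246489365, 56105914279938, 905979667, 3893691753547507209]⟩]

theorem blk5 : block 54 YP 8830984 st4 sl5 10207204 st5 = true := by decide +kernel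

end Pool.Agent.MP_3bf126_pr.H16
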