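import Pool.Agent.MP_3bf126_pr.H16.Dat8
import Pool.Agent.MP_3bf126_pr.H16.Blk5

namespace Pool.Agent.MP_3bf126_pr.H16
open H40

def sl8 : List Slab := [⟨10649, 1685011552, [2961158635826979587, 236582591548492976104460, 203119984154809674768907, 45123547177739, 13022738176780940888188199446, 2962567071600550153, 15501064607064155377778958618, 852190829256594174750878681997847, 4365543718858361764599530088908140306571522, 45145039381009, 45136416875279, 231860008889585563280138, 587801101, 605561607, 222101541098882266439944, 3106399689449742853, 236139801855297458086932, 66503832345543037208161840731993219330, 66498619607834294606002538763181236486, 2744702132452860417, 193970403036097724293648, 1015005018757436775161590890832650, 15481678923717094031459950874, 236471701381924531216910, 42937410331393, 2954686880372368394, 3463316604250301460, 620831765, 41833569264154, 15484120350365618234793992450]⟩,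
  ⟨11196, 882835398, [2885159219571663363, 2742730686611333404, 8716, 2889663970266980868, 236619632241421684121629, 12403758823011719314316665106, 2960313089909727744, 571941129, 66581776536149741738776553905825718542, 39613055312136, 2958060203454112266, 622339099, 1014451661968430471965826826182661, 2670392747190526477, 8984, 604906253, 42890131087628, 203562776383637920227333, 3032372882970911255, 621749018, 179913693566362022650131, 203322899747055492801048, 12998559494291106734971101442, 41816373534990, 3606021110334956571, 3247697872866582807, 2816199001345499667, 1014451334339996245598925038362641, 44062673478421]⟩]

theorem blk8 : block 54 YP 12992524 st7 sl8 14303224 st8 = true := by decide +kernel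

end Pool.Agent.MP_3bf126_pr.H16
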