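import Pool.Agent.MP_3bf126_pr.H16.Dat11
import Pool.Agent.MP_3bf126_pr.H16.Blk8

namespace Pool.Agent.MP_3bf126_pr.H16
open H40

def sl11 : List Slab := [⟨15019, 234640038, [11779934228711371309687053312, 179802870390850937888004, 812892431148016277747754772339976, 2741039697823997441, 770743035387982367543611394694151, 44088393604867, 588849180, 570826767, 189266191965151711272456, 2742447115624062226, 555032329, 2672078285581524499, 55849096737760615241467466589115194119, 2599458884050165252, 189413763665907214196226, 36417532140810, 10863558938851482767093210128, 7438, 488447003, 36374599113997, 175228144289764984036625, 522133004, 35257874979854, 37486979390230, 212933800052487802526486, 554311449, 2314602891871132695, 170358065367517609532693, 2601145487625231898, 39660216458251, 40746909506816, 7704]⟩,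
  ⟨15565, 93655091, [2670389465751165952, 11790809709591397957866560513, 12096687034622810884895153410, 170155146396536966094094, 2669826520109227523, 588324614, 570760967, 2671515318447578379, 2815067582322253317, 2455341436788743437, 2668419119472451086, 37461225577490, 2668700568646851848, 554901002, 53284103199117951902815108044421078018, 2312631441719696144, 11469235533664635491618462468, 537730841, 487267345, 521477653, 2744698872488140041, 7455, 11487378441559698434647137300, 36374582533391, 2310942591859432214, 36366009703699, 2669259202125175581, 2672641265548074014, 43005962361367, 488381207, 11481324699770052889141779483, 51923720233168210530856541999758842380]⟩,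
  ⟨16657, 128875553, [11174261913540590820778646272, 12409794062355358202390911758, 170560974766158559779843, 175283346035167978069258, 2672078307039059204, 7953, 37465520020998, 174877518227418269031426, 2454497080577170697, 2668983224738848020, 36396040395799, 2741039719265541140, 2668419162405674252, 12403753897372447110367090975, 12102712626251183369449708047, 487726098, 504831251, 6684, 471669515, 587538181, 11483742606608493232000145936, 36353108024589, 33063129914136, 2670670962237250823, 36353123949593, 732078468638591772440414247721750, 487529493, 151523793862053213313807, 11789600857487544289740200705, 37461193202458, 2383845731846331656, 2668982077966392347]⟩]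

theorem blk11 : block 54 YP 18219004 st10 sl11 21053464 st11 = true := by decide +kernel

end Pool.Agent.MP_3bf126_pr.H16
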