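import Pool.Agent.MP_3bf126_pr.H16.Dat3

namespace Pool.Agent.MP_3bf126_pr.H16
open H40

def sl3 : List Slab := [⟨5461, 547141672, [16723321151759346958446111750, 55053679930377, 3604057352636607752, 255140592553981372869632, 3896230521668185349, 255159039579551517191183, 3894256949802183691, 56080177114116, 3675554200056114447, 59374467361805, 907160841, 53915480370187, 3895952345225899269, 3891447637463346193, 11022, 55053663153175, 11266, 59383007554833, 255048359678054935178501]⟩,
  ⟨5735, 692676239, [255085330006693414644486, 58348003994633, 71836461931263974476378182133427022853, 255435456449835466042370, 255398779696238981753611, 3895670951887383564, 16725734705091878728235822095, 16722112447371875499567491843, 1096216644145945903261714623113991, 255232972922817082108929, 51750833564673, 16714849576706004188767529989, 1095424675632572095582410013223941, 59378695482377, 255103849653872736087057, 11022, 16716063169626178838835571722, 71836502497011641402492708254651329551, 3603211810980768521, 3897635740443552780, 255177418486983313665025, 3896226106391341835, 255398707638739433106182, 3895668757125540882, 3895668757125540882]⟩,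
  ⟨6007, 799532168, [16719680373149692457575262987, 16735401020345742550740249352, 3749865745669041165, 3894822060124220169, 255177342488799714749193, 16735401020345742550740249352, 16735401333943768352471526155, 255380113683167004207888, 1095662053048179002297624399325959, 3893979834217343754, 255066736052276332997386, 255362026103396994329353, 59443137096448, 59468873149203, 16731765074928841585847773711, 739388173, 59486036437778, 255306185686852256213525, 255232831060536904657686, 236250841768756896606978, 255250986474651037346576, 16435583082028620620475476480, 3460784326009891603, 3895663207978183186, 16726943538821887047346235908, 10767, 16730565446265706818627709709, 16732983537571024910008527381]⟩]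

theorem blk3 : block 54 YP 6602764 st2 sl3 7634944 st3 = true := by decide +kernel

end Pool.Agent.MP_3bf126_pr.H16
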