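import Pool.Agent.MP_3bf126_pr.H16.Dat6
import Pool.Agent.MP_3bf126_pr.H16.Blk3

namespace Pool.Agent.MP_3bf126_pr.H16
open H40

def sl6 : List Slab := [⟨8192, 831542180, [9489, 59460215252742, 59378644887302, 208082230653065291245058, 217361085069190573205008, 3317511355149722905, 16722102873007291433040487694, 71800115931562376741172927159023838736, 1095740976556645470850069308712206, 672016147, 16718452742041103746913281305, 3531994235154081280, 16732964334509316027794400526, 3176490240056632853, 3894255850240026368, 4711956475034151593099589393485420162393612, 2956375708757272079, 16719661538662856342432195854, 689317379, 3892571329656071449, 59378611332870, 3607428429400647188, 9745, 3102742662286747158]⟩,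
  ⟨9012, 6716112378, [208082228963081542509837, 1015164706996986607364931354633477, 217305534008883271836689, 3820787587061523730, 217600898085813929518085, 203378381281879645431051, 13930660117113903280129778962, 45140761126401, 49568906552835, 46270354892303, 13929441838795043301687174161, 16405364289967878209190634502, 250436174034895158584835, 3316383355004790021, 58304886613506, 47318326322711, 2955811624914920725, 51767946585607, 3824727077061666053, 14564132579561496220276892951, 250620855401089911104778, 688989712, 198526748541872718095377, 3819942015342486784]⟩]

theorem blk6 : block 54 YP 10207204 st5 sl6 11239444 st6 = true := by decide +kernel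

end Pool.Agent.MP_3bf126_pr.H16
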