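import Pool.Agent.MP_3bf126_pr.H16.Dat9
import Pool.Agent.MP_3bf126_pr.H16.Blk6

namespace Pool.Agent.MP_3bf126_pr.H16
open H40

def sl9 : List Slab := [⟨11742, 1251114008, [40789892735507, 605889042, 2886003665961427203, 2671237227938193665, 188989561174950665396502, 2960874893090824458, 2959187181397877248, 189321600880643052085510, 45183626911761, 179636923442912110845957, 179784497395433069223937, 40807056482562, 603988747, 2738509755961254170, 44097000579336, 3465557331554803460, 198655876310001398915590, 45187939967498, 588980496, 203340915267041016094481, 996229168874003416269170600845320, 2961723686019015196, 872314155092976908142255629279493, 39587284853005, 2743858884325679116, 587276815, 45080564343324, 571351303, 42885871116803, 8706, 15189128430787161652432740375]⟩,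
  ⟨12561, 127127279, [12398918120518685888036282372, 8972, 179784425899710931148553, 2959187159922974982, 571416843, 39634513174531, 189155581026145426743298, 39711804956435, 588915225, 179544757558008656175113, 194080864510727422287879, 198655799466340602552592, 555556891, 44101329756693, 40699681513741, 8475, 2961437873075200005, 3032651016447271441, 11457160221500310222368808714, 2887969627078270744, 198877017404811649425438, 2890224746933461269, 587735577, 38513493351955, 12709617000031737617053327878, 588128535, 8733, 656023836, 2744419579421466880, 2811695375915950110, 2671518715765792520, 193730520489614562500886]⟩,
  ⟨12834, 1246268020, [12408589600863985388548267776, 45114924081411, 2739070481105952514, 170395031477334318522130, 604512540, 37508504428548, 621093147, 2743293696678633481, 587604235, 588915201, 189340195397902696652800, 189413835724712467308550, 12078557648265466714925571849, 36400368786967, 2818167071275360266, 45097760661781, 165525092165571552615703, 227137576540467495182100, 39673168207877, 179507723049759705603586, 7966, 555163660, 226953175808097305370645, 170395104098977821499165, 174988344216613968158480, 14883260882673659973771468573, 45097760661773, 36370321710599, 40703959900174, 555032591, 3463308851718003991]⟩]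

theorem blk9 : block 54 YP 14303224 st8 sl9 16531444 st9 = true := by decide +kernel

end Pool.Agent.MP_3bf126_pr.H16
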