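import Pool.Agent.MP_3bf126_pr.H16.Dat12
import Pool.Agent.MP_3bf126_pr.H16.Blk9

namespace Pool.Agent.MP_3bf126_pr.H16
open H40

def sl12 : List Slab := [⟨17476, 92739056, [36408942205696, 174951230611834942790401, 170431848682430086060802, 772564043967068490830114789596163, 39668823301380, 39694641667331, 7685, 570826259, 179729011074473439075332, 170192047484513036409863, 2455623014844013576, 2672358703912000020, 156412254224032215341852, 488446985, 179802796361909810567947, 36370271640597, 2672357604417149197, 37508453833490, 813525928815305774281350781278721, 505223946, 505355536, 2382717654341851677, 146930483091968806689294, 2382156830446591006, 37413980544262, 6417, 2382156899166067998, 35253596526605, 11156118839483812147949672985, 470883087, 2599457818831559455, 2599739302431497239]⟩,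
  ⟨18022, 172300176, [34179821411086, 2384126163096771072, 2598612247144110857, 35184858700300, 174785205973297801533953, 170247382930512786233858, 11776302618132678082700647171, 588586244, 40811333360901, 7686, 38522066967815, 11145238673119813347924777234, 2673484620998646027, 160931635028486353263383, 179821245075161599712008, 170487051271252955895824, 2455903334440114954, 555293195, 7181, 38526377270296, 35275053997071, 504503316, 488446749, 10213147402953048180896045326, 6425, 6677, 33093177579798, 2310099339388327707, 37486895831065, 6929, 537337114, 454564117]⟩]

theorem blk12 : block 54 YP 21053464 st11 sl12 23183344 st12 = true := by decide +kernel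

end Pool.Agent.MP_3bf126_pr.H16
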