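import Pool.Agent.MP_3bf126_pr.H16.Dat13
import Pool.Agent.MP_3bf126_pr.H16.Blk10

namespace Pool.Agent.MP_3bf126_pr.H16
open H40

def sl13 : List Slab := [⟨19115, 82765502, [45209998076713545593598509815689844747, 35313675409676, 2384126154507164161, 2310941539590871555, 11461976998126892209855732230, 170173522770775560624902, 555162632, 504831241, 38513475460106, 151302360593004449700365, 161097581132090461592078, 146413831266413418190863, 471210770, 2450556460901603601, 2458155108485176080, 2667010666501642756, 151578993634940918241547, 31976435750671, 34179821279744, 2598049271421999874, 6424, 28673622480924, 488315414, 487332871, 2238603565727225627, 9615938048062858440111888407, 2524301702241524499, 2384127254018791965, 2312068560469235969, 33037359389461, 437524761, 11152496710673436268934732037]⟩,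
  ⟨20207, 549913624, [151615887967513251354368, 151468312608656809924867, 174748317833235052501263, 11775088785407644073090750724, 34154084637445, 7191, 553982982, 165432564020135357324040, 503651335, 175024950031889086748947, 146690679077077176686858, 141912898332989458945803, 831828562811056509383759750109449, 34171214370817, 2526273173801801997, 2385249803850291458, 34214180493838, 6430, 146893593542241955944464, 34196983585298, 45153428969502, 2526555804158728979, 31985025947153, 30889825736469, 6164, 2524020227264748058, 6678, 142152636200136295127065, 2240009849689347608, 11156123488129465350857299999, 471472908, 9625609620638501756207962140]⟩,
  ⟨21026, 152026924, [151320738936442581751552, 11160959154514717199408764957, 35270725998605, 2309815596702112002, 151265471326943042541827, 2384405335970290197, 471276293, 2530774527195290119, 9629231288347548316196870154, 9916955946938701037671355904, 11486151031888315058752788489, 9007834156656268001768445723, 437655823, 2169637811288545035, 470554899, 2311502299045566221, 669962661966897689738306012583683, 32015090521366, 37409635244550, 2236913642190805010, 437786644, 503650820, 39634429417742, 453909022, 6168, 33114602149404, 165414192991795262265625, 2023269629380335391, 31989337691927, 2240290186532231440, 30906972509719, 503716616]⟩]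

theorem blk13 : block 54 YP 23183344 st12 sl13 26804224 st13 = true := by decide +kernel

end Pool.Agent.MP_3bf126_pr.H16
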