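import Pool.Agent.MP_3bf126_pr.H16.Dat14
import Pool.Agent.MP_3bf126_pr.H16.Blk11

namespace Pool.Agent.MP_3bf126_pr.H16
open H40

def sl14 : List Slab := [⟨22118, 186475470, [9921791576431027680167073280, 29777412953858, 2309534108840827139, 34158344804612, 36396022897157, 471472646, 10851465068756518503026268186, 650234532752983830047429315400969, 691117177358653789980110889162256, 454760460, 630110564971881132618762092943112, 170320953449282015205130, 2166826390087276045, 470358030, 31993615619345, 2096172816579433995, 2235223701375359239, 142152631132409876256797, 132246659756959121085967, 10534721578803811303888394000, 11164585968867330790933796609, 404690712, 151357627356992447256323, 127837810236248965256731, 33093127247385, 5662, 6679, 37422521587990, 2451396376115878162, 34102476675349, 31890535618323, 30876941358876]⟩,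
  ⟨23211, 292829629, [146764466052302536250880, 42639732377399031449058470486259209223, 454563585, 731920309699943704828102576182804, 151505274774503800575766, 10549242874333435297086510868, 33093210675203, 437328132, 470227205, 2452240813914658844, 2236068134895622160, 10844206440984773420671899398, 650472222075971649073015981806856, 2457306358439745036, 29755936216841, 650630682028183463272986915378439, 6171, 2239728336107476994, 630744409614955930038590802761226, 486676254, 137503911167669862929679, 30846857910029, 691037348360302392067994064786963, 27608403612686, 5909, 2095609849446602513, 29790297724434, 11481310569133710573882578443, 5400, 30889826129420, 1952899901638383127, 34115362560029]⟩]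

theorem blk14 : block 54 YP 26804224 st13 sl14 29523964 st14 = true := by decide +kernel

end Pool.Agent.MP_3bf126_pr.H16
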