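import Pool.Agent.MP_3bf126_pr.H16.Dat15
import Pool.Agent.MP_3bf126_pr.H16.Blk12

namespace Pool.Agent.MP_3bf126_pr.H16
open H40

def sl15 : List Slab := [⟨24303, 495106811, [142207903528169430979840, 9010252045117770142451766017, 10545597096508924351529424387, 5890, 146838104409719476328197, 470882321, 486873094, 436541447, 2235784349192820511, 160802287700998023812873, 9605057549660280886971864842, 9010252045117770142434989071, 752359952176878563294855921931547, 30816811358216, 9939925611226860599794996740, 691116560801818615588207531660547, 27599813219351, 6160, 2313753012198839565, 9623182305745814054788994578, 31899109758483, 30799631685120, 1734473107769398298, 630269331986141308484724604998668, 137503912575074827572761, 710685913315953835783453984036363, 5404, 5661, 421205530, 1953462842985944350, 2026364758891763221, 29760248026638]⟩,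
  ⟨25668, 216589350, [2097297672776783104, 141857412293328728953879, 2165977537061918210, 387913219, 30885512681221, 436475655, 146487469339168482465288, 10548010096438850214539957769, 691116554757042014495282821207321, 132633824364191859479297, 631139623167311562389112182477836, 127911601996510273344523, 9296762649617051117037359895, 30799631947285, 132633824364191859479041, 151671227353067443525134, 2090822623047456262, 649838078819291031834292606669839, 151615668133434677335314, 629318295435867484432058261050890, 151671299410661482370318, 2019047513320724237, 1734473120654955286, 402855697, 2090540074311750932, 30803926456068, 26513187148560, 27621304964380, 1952056464534869279, 5146, 2025520333961499934, 371004699]⟩]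

theorem blk15 : block 54 YP 29523964 st14 sl15 32522224 st15 = true := by decide +kernel

end Pool.Agent.MP_3bf126_pr.H16
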