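import Pool.Agent.MP_3bf126_pr.H16.Dat16
import Pool.Agent.MP_3bf126_pr.H16.Blk13

namespace Pool.Agent.MP_3bf126_pr.H16
open H40

def sl16 : List Slab := [⟨26761, 285935308, [29764476605440, 650868023171274818011322018173713, 9936303556058780678547706900, 142097218840387046478849, 5635, 9603830029237784030815130886, 10558890484159273251464484103, 45318975937620808326040844591085851656, 28712243369477, 2024957461232423182, 470947072, 30803908826637, 30898398368521, 42655329313289708006733887297307939857, 29764493448203, 4890, 5911, 28604868793871, 5138, 141986396794078748087554, 2025802981463234073, 26453023724058, 30803892507672, 41346789690689910714289029570670367498, 9601421179755186418099623187, 137485318618475884909840, 1734473060491530774, 132799841119024437007390, 9312478390124136129840812556, 30855431198212, 2019892045624841749, 1878028549954343964]⟩,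
  ⟨28126, 399541567, [1952052057864475392, 29785968677646, 650075748799650198834958373032449, 146579635504387238990861, 2090541040678278147, 2024958492108920084, 9006610786819586214007608345, 45318977601426727884934950119127913223, 9938721241681535419619021570, 30919873597964, 2312063028483789826, 9300389150374733855968530972, 471274506, 631060387746446223244309176062487, 28669293630737, 2026364874771075337, 30868333663499, 630743479931815747133211221890053, 387126800, 5380, 132634040818423144977174, 4879, 27569765684255, 5138, 630902544355994791202104946201624, 28699358270728, 31963533743389, 8695921960996260352413078534, 2093638433653921043, 8692290331901577896738755355, 23180259234069, 1663822867107549722]⟩]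

theorem blk16 : block 54 YP 32522224 st15 sl16 35815444 st16 = true := by decide +kernel

end Pool.Agent.MP_3bf126_pr.H16
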