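import Pool.Agent.MP_3bf126_pr.H16.Dat17
import Pool.Agent.MP_3bf126_pr.H16.Blk14

namespace Pool.Agent.MP_3bf126_pr.H16
open H40

def sl17 : List Slab := [⟨29491, 520613097, [29751575253504, 651105404213308551879604192350466, 146524217582869203718658, 5395, 9009029099627417263557907206, 629792744399957382913138244784913, 2970364819222259670902309135650696754369031, 9310051130649649192345604616, 9006624898574861879109816843, 403902985, 2097859441613017860, 1877743806490809089, 471340044, 1881404093584446489, 28600574416142, 23193160192791, 151375856236105516717084, 2239722791238112266, 1735594613857718287, 4629, 29700102821136, 1802308568549888790, 22072157147422, 9304020871709610566017094684, 5143, 631219442498905126725634549748504, 8674151371680396959576428813, 27582583738639, 26401517409306, 2238596929951568643, 570133630959060094187132268909317, 37286393027231255813109041354404139803]⟩,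
  ⟨31129, 688800210, [8061230721882578885570269191, 337056271, 1945858603321331968, 630268389009613192907813582606593, 146616451866273588515330, 2236626600820937501, 2091102938349900554, 151449644619783828345616, 353047555, 26422991786780, 1803716987111543569, 5132, 1729685855583932935, 137024072891450112152072, 1876056086206354189, 2970024484933558599751428932575291924877574, 650550798613264863331760833892353, 27604057919515, 1875774628409578510, 567914911158245164078069258981402, 629871949587937273131957643121157, 2443941237145908196389412417163520572133919, 1947833321959134228, 4627, 41315675603475558968262717879255634457, 26487367078153, 1737001945792122642, 4118, 609035263221269917340953393173271, 8986054565253298489412293124, 568628269270549015255951465517598, 1945860836754395659]⟩]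

theorem blk17 : block 54 YP 35815444 st16 sl17 39452644 st17 = true := by decide +kernel

end Pool.Agent.MP_3bf126_pr.H16
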