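import Pool.Agent.MP_3bf126_pr.H16.Dat18
import Pool.Agent.MP_3bf126_pr.H16.Blk15

namespace Pool.Agent.MP_3bf126_pr.H16
open H40

def sl18 : List Slab := [⟨32495, 872216777, [9631634788134466065072918531, 146598008500947570987524, 2237471068683178501, 2090258556368654854, 353702664, 568390579947192266134948759539998, 1730531302715363849, 630505771261236962033485910642964, 160344537858205577072479892632151704199307727125, 41248174714348493062485986430350528792, 194309009042889467214795409767292370721198575631, 1733344978741039628, 2089975973273473293, 1802591130153587466, 337252865, 1737846383606435610, 151541877213148629635591, 26500251324697, 9941125018384382894089179152, 1949519959895446047, 27616943018001, 336466699, 122893872840786267804174, 28604835894034, 123041231461737373241346, 2166255700552127004, 4375, 7456749254574725682164600576, 631219159601187246923081193557520, 137060970319023121174813, 4123, 132725987712466087579667]⟩,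
  ⟨34134, 638432401, [27591171903761, 569736855441949476682125357682204, 8384014210865900079395245842, 1734190421561774080, 137485248529024772215043, 141949288536168934150425, 23206028775940, 1731094291323818246, 609194325208836699726464415895581, 122912321836698446074134, 41253326445442426871166108342610497543, 2707323782057820914901250353027155610505225, 12363014068362717902596924735146296252959077920018186, 21019822460431, 146690245599024428093697, 151689451728714029404432, 1736722687033610507, 104373125896120338419736, 2093635156559532300, 4116, 10489340134098630648861317677766660960485490940907528, 1952897668205777427, 1803154105876943373, 113651766388059258359579, 4378, 113780814502106769526545, 320344590, 320147989, 38584445216108155615679040394946088965, 146800926342742622081282, 22072124116751, 1875209500875166231]⟩]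

theorem blk18 : block 54 YP 39452644 st17 sl18 43450384 st18 = true := by decide +kernel

end Pool.Agent.MP_3bf126_pr.H16
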