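import Pool.Agent.MP_3bf126_pr.H16.Dat19
import Pool.Agent.MP_3bf126_pr.H16.Blk16

namespace Pool.Agent.MP_3bf126_pr.H16
open H40

def sl19 : List Slab := [⟨35771, 601300335, [569895310557941504152250913459457, 8695912331511558596089941505, 113633390014911568482050, 1733908993829441539, 146800921558780432027918, 9300370648081006157403197445, 23188847857926, 1731094274144342023, 12392244101111718041375540628066760227849735822774028, 19855919615518, 22093632311578, 1809059514059526144, 137024007024020588269586, 8982423157450301116188200975, 8055176869480867291359023113, 3859, 1448771543869886225, 2705279413762961119794068492729818839912202, 1803154088697270550, 104391496922390208253465, 687908299884853049281844625942842572847725378466855653140, 137429907170916622340100, 1732219100291862800, 320344347, 1948394081446727957, 113633317955118507298327, 146727138240560762654749, 4376, 39950120781176578184433948212531957512, 22029140823309, 2528670201682705625268354441142512203730716, 177427173763021766021164609274302167629321867019]⟩,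
  ⟨37684, 565193928, [27616941707275, 549137539232925115718522553240576, 528855724434833332820502398110976, 132578339733104293121537, 1734189322067054338, 1662132827507200003, 118503403633929292353540, 590256643674874680471342077447941, 23175963873286, 7437411145377534122135916295, 11614713722696330855994121897513376796891555540700680, 45076481431081747156754939954517675758153031895489304087170580, 22115039055133, 528062543359362297968280260054798, 132338533747776124423948, 9314882425014408457881980693, 171561900824979283421261528203659832672032853521, 1449617021067398928, 118208399000582515331090, 108929400750722644774425, 1447928269991972887, 3855, 94965069399246903184656, 1952333627314278424, 320737546, 9925394686214220367203995418, 137097792873371842711309, 2617830843533890971405051623335248116518428, 18782162325011, 19881690729993, 4123, 2529350776802171181750825978782081779764766]⟩]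

theorem blk19 : block 54 YP 43450384 st18 sl19 47857684 st19 = true := by decide +kernel

end Pool.Agent.MP_3bf126_pr.H16
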