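import Pool.Agent.MP_3bf126_pr.H16.Dat20
import Pool.Agent.MP_3bf126_pr.H16.Blk17

namespace Pool.Agent.MP_3bf126_pr.H16
open H40

def sl20 : List Slab := [⟨39321, 521695472, [1230344840178044188, 108929464925879099525889, 1662131727994981377, 1590074133957053698, 528063135742218976856897705741571, 8676564869812869947111312899, 1733343909243981574, 1519141400444407560, 487338960750206013385099480469001, 108984733101635835596307, 8672937981680877767667551758, 34601913514786609304785790304164318733, 19916015799308, 137079346410730160393754, 303697687, 46670865175688535430541725961026435760917507827803996849179915, 9627998953033232500814777881, 94448560002233082317846, 38615559619932916482092131968186912263, 3861, 22102188166929, 1445111334069079828, 26474498428676, 11240557706886011596428121069480074643381033720089872, 1662977364106350341, 165741233462035956473255689638231990342149999903, 269684480, 761565012646443873448497824278814915628907399947581852938, 7745692007160289136506834706, 3613, 609747082351875699893718183054863, 171517560331090149962565513249922185573846748443]⟩,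
  ⟨41506, 665655095, [1376151081398045441, 94909731695777913309697, 22097892543490, 22097892543491, 1520265109866876164, 8683818295610386089199537669, 1734188282634636806, 1518578463358651911, 487338650056270372988360124730632, 3084, 8983627287114485169365388557, 568389667193994103859757801082122, 148614171996856438498939254715153061799501499659, 1445111312577203732, 269815578, 1661003719242681865, 3613, 302910990, 3059033196292966823880362435227941702617417967419279296712054869007, 1445955707459145237, 48321818408649371910760032735898838331609536539987880865631259, 252710419, 171450310324288243272712807788350354758736022809, 2529688457766804766597924266847687523175698, 1733062412775460374, 18782161472768, 1661006987729899032, 527904697537131719589429597768976, 736756970849718875544671183438772137497695388739190328343, 40017499896003710499719197516584193310, 25327625440012, 11242036335494634180879399792090218959517846522235935]⟩]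

theorem blk20 : block 54 YP 47857684 st19 sl20 52707304 st20 = true := by decide +kernel

end Pool.Agent.MP_3bf126_pr.H16
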