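import Pool.Agent.MP_3bf126_pr.H16.Dat21
import Pool.Agent.MP_3bf126_pr.H16.Blk18

namespace Pool.Agent.MP_3bf126_pr.H16
open H40

def sl21 : List Slab := [⟨43418, 852027749, [19924554615552, 19855837170434, 1518576290070924548, 8989676823121637922638859525, 109150901571519499406618, 528221613814021575734506168716571, 31958993214504716606676131060435454984, 3163527619341957187772818336921083927362329334852473928491712187156, 113707103240338659282182, 253169173, 3060678688297617057612534424205009468977069109404211450763202071570, 99576899251387390233863, 1665507267330903311, 269028878, 11247882297447911799131330805727587995914417829383199, 3081, 9736655461919746945392930750867652031979460052192268, 10859100471794125267584316506300936772489135091158038, 737140091812288877534429737121465010705603385696248466460, 18730622323993, 1300712484844539153, 22072123132931, 94817493194857413545235, 3344, 37260370060316460631603242741661633547, 166142475712244484965846859870232147842479492119, 609350323768876431413546927328266, 1305775611286587905, 1737565960863681816, 22046352936461, 2527988390757606537349952832983879883492381, 18756325542686]⟩]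

theorem blk21 : block 54 YP 52707304 st20 sl21 55312384 st21 = true := by decide +kernel

end Pool.Agent.MP_3bf126_pr.H16
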