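import Pool.Agent.MP_3bf126_pr.H16.Dat22
import Pool.Agent.MP_3bf126_pr.H16.Blk19

namespace Pool.Agent.MP_3bf126_pr.H16
open H40

def sl22 : List Slab := [⟨45602, 911887248, [80317993466708514310427, 1225555320231758363, 15462083725855, 1521391069886942210, 99650685383261576760323, 99539860801432220339204, 113614871490329308892168, 529489260787380114540959241145349, 10521476310316548630509866059338751408044613017930521, 712045139712157550850468701790110927996914083094646885137, 137619643273114509961071042521533139676547648262, 713099073861073299799091821523623816885928829347091581714, 13140235168962410343991524151253608564709755186183122758701248491218869029383, 200719439895144325888277777336084813051975902854303478038873434288425738, 19860130237185, 19877345430548, 3087, 253627657, 19800001743360, 90002894960831661673494, 17665437338893, 638484599621726709728854390147700624702145726184906689296, 37249985070467041033265378970131368728, 165718934757171185067588362636689019916352621342, 10883962703060110751752898026365765576108944051276574, 10864935171860527664650882697100988693377312227199758, 94817566377256124681244, 6522244799573457696966904843, 22115072871445, 17721254218771, 3351, 38688231334778194582252749548517329946]⟩,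
  ⟨48060, 951993731, [85021910672225365657857, 14345392163330, 1662972897307528218, 7432561311606007407729838854, 85372548838047620205327, 34700525875978470688693787555775777543, 29383593610408656528841169541078321951, 12714411600081816901090161746338685187083717627001999492296995535274331080972, 7430152904987975433069529882, 19795706186258, 253627409, 7763820821526703727673346820, 2832, 45139252159964403192469014888018960947327546129444638877616649, 1735596825698372611, 302779164, 1225273806601324800, 664249650199002105705951418750790121500899491495505627669, 159965345218152104399106953167790292407155231255, 37234407308381648764345146855336315670, 17635372567572, 99539858831107383102213, 113375133060271172226052, 8988349362560372402439313645160094605285142781561354, 159965258107195420917054826068465020882024729112, 688769578858565318210508811184783889531762211889378560537, 19842951940878, 385687980613995556308435864587027, 45101615698474852145034890047453399173691079831034067478448651, 687140958882070169137185147695290850384724656549276486152, 218893342, 1877458014937287427]⟩]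

theorem blk22 : block 54 YP 55312384 st21 sl22 60932104 st22 = true := by decide +kernel

end Pool.Agent.MP_3bf126_pr.H16
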