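import Pool.Agent.MP_3bf126_pr.H16.Dat23
import Pool.Agent.MP_3bf126_pr.H16.Blk20

namespace Pool.Agent.MP_3bf126_pr.H16
open H40

def sl23 : List Slab := [⟨50244, 1221482652, [1153216285560014864, 14302442490369, 2828, 1806239227977992735, 7461584699528395111281068822, 2023260923296353034, 427520432292749579039380554713621, 508254257508627646734463797889539, 160009768399342726356470672287289563702711880211, 447406719213087089231248638937605, 27960925425110057285751588956631796230, 45145480604940054687227156108146243259387829725732554692757785, 831514772548705059403169155255233518086201823910990975775806904213547137713703175, 2957424997250053981337154506583121658998276377933689576372309723420, 19800001481498, 5594974899482531424262162948, 19799983852047, 7123085470036300041874967310, 30593441245385522862536557693138700811, 45145529644797362395670623575251112069281705525384464568027405, 1154345471150525204, 43538542560306919992528482868743828162340020052796341957036305, 45057552044266836606491726241268079986925641741639004630681885, 1442580245365525258, 137240531285309397045902445381205127194083920407, 19795707234825, 1225273875321456896, 2442235868658608420240780981039214120995352, 113706956874510393019138, 30718035453733704090304204724064291336, 160054282774795401672868259876582627040609044754, 687523682321792225559651089981749058936992792433244375325]⟩]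

theorem blk23 : block 54 YP 60932104 st22 sl23 63946744 st23 = true := by decide +kernel

end Pool.Agent.MP_3bf126_pr.H16
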