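import Pool.Agent.MP_3bf126_pr.H16.Dat24
import Pool.Agent.MP_3bf126_pr.H16.Blk21

namespace Pool.Agent.MP_3bf126_pr.H16
open H40

def sl24 : List Slab := [⟨52702, 730245253, [52574249587350677153245224665435433501963333921098228345614663482733421980837201643532, 18700455446528, 1230903280364816666, 19881605138969, 185928206, 13211505330704, 5270987520635659997536389379, 447645008158411419270788660136210, 202705431, 6529488780480942855115049222, 2359883600040923930350844239541370397788424, 25375121816077945327851310700078172425, 10118090529463834180416145546225717444798966896134430, 114426786596314758981889950632657640440339761418, 2849642772710406833156646901684774604589018777757005640706188970003, 8998580007832964216564124099328538178813324263819544, 186862134677288250177965559745923137118468992911266658335492988844705805, 2849639558834318315176095817760589922263813733351018075120518367243, 6220008493026080656035481885, 43482048932034277138095727478437139432211437780961887346886933, 663291099499323048860225147515104833541669495258757597471, 2561, 43469445496787635330103715267549910370986852041277937905895446, 407633548143946204582731581622535, 2359884929289202124870368813772455238830344, 1155186520220830228]⟩]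

theorem blk24 : block 54 YP 63946744 st23 sl24 67108864 st24 = true := by decide +kernel

end Pool.Agent.MP_3bf126_pr.H16
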