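import Pool.Agent.MP_3bf126_pr.H16.Sound

/-! Soundness of the whole checker. -/

namespace Pool.Agent.MP_3bf126_pr.H16
open H40 Finset Filter
noncomputable section

variable {J Y : ℕ}

lemma rep_ext {G : ℕ} {v : PV} {w : ℕ → ℤ} (h : Rep G v w) :
    Rep (G + 1) v fun k => if k < G then w k else 0 := by
  refine ⟨?_, fun k _ => ?_⟩ <;> beta_reduce
  · rw [sum_range_succ, if_neg (lt_irrefl _), zero_mul, add_zero, h.1]
    exact sum_congr rfl fun k hk => by rw [if_pos (mem_range.1 hk)]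
  · split_ifs with a
    · exact h.2 k a
    · exact Nat.zero_le _

lemma rep_sh {G : ℕ} {v : PV} {w : ℕ → ℤ} (h : Rep G v w) :
    Rep (G + 1) (sh v) fun k => if k = 0 then 0 else w (k - 1) := by
  refine ⟨?_, fun k _ => ?_⟩ <;> beta_reduce
  · change v.x * _ = _
    rw [sum_range_succ', h.1, sum_mul, if_pos rfl, zero_mul, add_zero]
    refine sum_congr rfl fun k _ => ?_
    rw [if_neg k.succ_ne_zero, Nat.add_sub_cancel, mul_add, pow_add, mul_assoc]
    norm_num
  · split_ifs with a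
    · exact Nat.zero_le _
    · exact h.2 _ (by omega)

lemma chk_sound {z : PV} {f : ℕ → ℝ} (h : RepR (J + 2) z f) {e : ℕ}
    (hc : chk (mkCx J Y) e z = true) (i : ℕ) (hi : i ≤ J + 1) : dif f i ≤ e := by
  obtain ⟨u, h1, h2⟩ := h
  have := ((((rep_ext ((rep_pk (J + 2) ((List.range (J + 2)).map fun _ => 1)).smul (Int.ofNat e))).add
    ((rep_ext h1).smul (-1))).add (rep_sh h1)).add
    (rep_single (b := J + 2) (by omega) (Int.ofNat z.u))).nonneg hc i (by omega)
  have hi' : i < J + 2 := by omega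
  simp only [if_pos hi', if_neg hi'.ne, zo] at this
  rw [List.getD_eq_getElem _ _ (by simpa using hi'), List.getElem_map] at this
  cases i with
  | zero =>
    rw [dif, ← h2 0 hi']
    exact_mod_cast (show u 0 ≤ e by simp at this; omega)
  | succ i =>
    rw [dif, ← h2 _ hi', ← h2 i (by omega)]
    exact_mod_cast (show u (i + 1) - u i ≤ e by simp at this; omega)

lemma okb_sound {K st : ℕ} {l : List (ℕ × ℕ)} (h : okb K J st l = true) : OK K J st l := by
  induction l generalizing st with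
  | nil => exact Nat.le_of_ble_eq_true h
  | cons p l ih =>
    simp only [okb, Bool.and_eq_true, Nat.blt_eq, Nat.ble_eq] at h
    exact ⟨h.1.1, h.1.2, ih h.2⟩

lemma decR_ex {f n : ℕ} {k : List (ℕ × ℕ) → Bool} (h : decR f n k = true) : ∃ l, k l = true := by
  induction f generalizing n k with
  | zero => exact ⟨_, h⟩
  | succ f ih =>
    simp only [decR, fN_eq] at h
    cases hb : Nat.beq n 0 <;> rw [hb] at h
    · exact let ⟨_, hl⟩ := ih h; ⟨_, hl⟩
    · exact ⟨_, h⟩

lemma decN_ex {L : List ℕ} {k : List Node → Bool} (h : decN L k = true) : ∃ l, k l = true := by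
  induction L generalizing k with
  | nil => exact ⟨_, h⟩
  | cons n L ih =>
    simp only [decN, fN_eq] at h
    obtain ⟨_, a⟩ := decR_ex h
    exact let ⟨_, hl⟩ := ih a; ⟨_, hl⟩

lemma rep_addL {K q : ℕ} (hq : q < K) {A B : List PV} (hA : VL J Y K A) {f : ℕ → ℝ}
    (h : RepR (J + 2) (B.getD q PV.zero) f) :
    RepR (J + 2) ((addL K A B).getD q PV.zero) fun i => PX J Y (A.getD q PV.zero) i + f i := by
  rw [addL, zw_getD _ _ _ _ hq]
  exact (hA.2 q hq).add h

lemma same_eq {A B : List PV} (h : same A B = true) : A = B := by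
  induction A generalizing B with
  | nil => cases B <;> simp_all [same]
  | cons a A ih =>
    cases B with
    | nil => simp [same] at h
    | cons b B =>
      simp only [same, Bool.and_eq_true, decide_eq_true_eq, Nat.beq_eq] at h
      cases a
      cases b
      simp_all [ih h.2]

def Good (g : Gr) (Y T : ℕ) (A : List PV) : Prop :=
  VL g.J Y A.length A ∧ g.Ev (T / 2 ^ 26) A.length (WP g.J Y A)

variable {g : Gr} (hy : ∀ j, g.y j = dY Y j / 64)
include hy

lemma core_sound {T s e K : ℕ} {N : List Node} {A : List PV} {k : ℕ → List PV → Bool} (hs : 0 < s)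
    (hA : VL g.J Y K A) (hN : ∀ q < K, OK K g.J (N.getD q n0).a (N.getD q n0).l)
    (h0 : g.Ev (T / 2 ^ 26) K (WP g.J Y A)) (h : core (mkCx g.J Y) T s e K N A k = true) :
    ∃ T' B, Good g Y T' B ∧ k T' B = true := by
  obtain ⟨A1, v1, h, a1⟩ := app_sound rfl hy hA hN h
  obtain ⟨A2, v2, h, a2⟩ := app_sound rfl hy v1 hN h
  obtain ⟨A3, v3, h, a3⟩ := app_sound rfl hy v2 hN h
  obtain ⟨A4, v4, h, a4⟩ := app_sound rfl hy v3 hN h
  obtain ⟨A5, v5, h, a5⟩ := app_sound rfl hy v4 hN h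
  obtain ⟨A6, v6, h, a6⟩ := app_sound rfl hy v5 hN h
  obtain ⟨Z, v7, h, a7⟩ := app_sound rfl hy v6 hN h
  simp only [fL_eq, fN_eq, Bool.and_eq_true] at h
  obtain ⟨h1, h2, h3⟩ := h
  generalize hB : addL K A _ = B at h2 h3
  have l : B.length = K := hB ▸ zw_length ..
  have r := fun q (hq : q < K) => valid (Y := Y) (v := B.getD q PV.zero) (hB ▸ rep_addL hq hA
    (rep_addL hq v1 (rep_addL hq v2 (rep_addL hq v3 (rep_addL hq v4 (rep_addL hq v5
      (B := A6.map (mkCx g.J Y).ramp.add) (f := fun i => (i + 1) + PX g.J Y (A6.getD q PV.zero) i) (by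
        have : (A6.map (mkCx g.J Y).ramp.add).getD q PV.zero =
            (mkCx g.J Y).ramp.add (A6.getD q PV.zero) := by simp [v6.1, hq]
        rw [this]
        exact ((rep_list fun i => Int.ofNat (i + 1)).add (v6.2 q hq)).congr fun i _ => by
          simp))))))) (all_getD h2 (l ▸ hq) _)
  refine ⟨_, B, ⟨⟨rfl, fun q hq => (r q (l ▸ hq)).1⟩, ?_⟩, h3⟩
  have := Gr.slab (p := 4) (h := 60 * s / 2 ^ 26) (e := 6 * e / 2 ^ 60) (t := T / 2 ^ 26)
    (D := fun k => WP g.J Y ([A, A1, A2, A3, A4, A5, A6].getD k [])) hN (by positivity)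
    (by positivity) (fun k hk q hq i hi => ?_) (fun q hq i hi => ?_) (by positivity) h0
    (W := WP g.J Y B) fun q hq i hi => ?_
  · rw [l]
    convert this using 1
    push_cast; ring
  · have b1 := a1 q hq i hi
    have b2 := a2 q hq i hi
    have b3 := a3 q hq i hi
    have b4 := a4 q hq i hi
    have b5 := a5 q hq i hi
    have b6 := a6 q hq i hi
    push_cast at b1 b2 b3 b4 b5 b6
    interval_cases k <;> simp [Gr.src] <;> simp at b1 b2 b3 b4 b5 b6 <;> linarith
  · have b := a7 q hq i hi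
    have c := chk_sound (v7.2 q hq) (all_getD h1 (v7.1 ▸ hq) _) i hi
    have d : WP g.J Y Z q i ≤ e / 2 ^ 60 := div_le_div_of_nonneg_right c (by positivity)
    push_cast at b
    change _ * g.L (WP g.J Y A6) _ _ _ _ ≤ _
    linarith
  · simp only [sum_range_succ, range_zero, sum_empty, List.getD_cons_succ, List.getD_cons_zero, WP,
      (r q hq).2 i hi]
    cases i <;> simp only [dif] <;> push_cast <;> linarith

lemma slab_sound {T : ℕ} {A : List PV} {s : Slab} {k : ℕ → List PV → Bool} (hA : Good g Y T A)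
    (h : slab (mkCx g.J Y) T A s k = true) : ∃ T' B, Good g Y T' B ∧ k T' B = true := by
  obtain ⟨N, h⟩ := decN_ex h
  simp only [fN_eq, Bool.and_eq_true, Nat.blt_eq] at h
  obtain ⟨⟨h1, h2⟩, h3⟩ := h
  have a := fun q (hq : q < N.length) => Bool.and_eq_true_iff.1 (all_getD h2 hq n0)
  have b : ∀ q < N.length, (N.map fun nd => A.getD nd.s PV.zero).getD q PV.zero =
      A.getD (N.getD q n0).s PV.zero := fun q hq => by simp [hq]
  have c : ∀ q < N.length, (N.getD q n0).s < A.length := fun q hq => Nat.blt_eq ▸ (a q hq).1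
  exact core_sound hy h1 ⟨by simp, fun q hq => b q hq ▸ hA.1.2 _ (c q hq)⟩
    (fun q hq => okb_sound (a q hq).2)
    ((hA.2.map _ c).le fun q hq i _ => by simp only [WP, b q hq, le_refl]) h3

lemma run_sound {l : List Slab} {T : ℕ} {A : List PV} {k : ℕ → List PV → Bool} (hA : Good g Y T A)
    (h : run (mkCx g.J Y) l T A k = true) : ∃ T' B, Good g Y T' B ∧ k T' B = true := by
  induction l generalizing T A with
  | nil => exact ⟨_, _, hA, h⟩
  | cons s l ih => exact let ⟨_, _, a, b⟩ := slab_sound hy hA h; ih a b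

theorem block_sound {l : List Slab} {T T' : ℕ} {A B : List PV} (hA : Good g Y T A)
    (h : block g.J Y T A l T' B = true) : Good g Y T' B := by
  rw [block, fC_eq] at h
  obtain ⟨_, _, a, b⟩ := run_sound hy hA h
  simp only [Bool.and_eq_true, Nat.beq_eq] at b
  rwa [b.1, same_eq b.2] at a

theorem start {T : ℕ} {P : List ℤ} (hT : 0 < T) (hs : (pk (g.J + 2) P).small = true)
    (h1 : 0 < dY Y g.J) (h2 : T * dY Y g.J < 2 ^ 33) (h3 : 7 * 2 ^ 60 ≤ 3 * P.getD 0 0)
    (h4 : ∀ j < g.J, (dY Y (j + 1) - dY Y j) * (6 * 2 ^ 32 - T * (dY Y j + dY Y (j + 1))) * 2 ^ 22 ≤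
      6 * (P.getD (j + 1) 0 - P.getD j 0))
    (h5 : 2 ^ 120 < 3 * T ^ 2 * dY Y g.J * (P.getD (g.J + 1) 0 - P.getD g.J 0)) :
    Good g Y T [pk (g.J + 2) P] := by
  obtain ⟨a, b⟩ := valid (Y := Y) (repR_pk (g.J + 2) P) hs
  have h1' : (0 : ℝ) < dY Y g.J := by exact_mod_cast h1
  refine ⟨⟨rfl, fun q hq => ?_⟩, (Gr.term (w := fun i => dif (fun k => P.getD k 0) i / 2 ^ 60)
    (by positivity) ?_ ?_ ?_ (fun j hj => ?_) ?_).le fun q hq i hi => ?_⟩
  · rwa [Nat.lt_one_iff.1 hq]
  · rw [hy]; positivity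
  · have : (T : ℝ) * dY Y g.J < 2 ^ 33 := by exact_mod_cast h2
    rw [hy]; linarith
  · have : (7 : ℝ) * 2 ^ 60 ≤ 3 * P.getD 0 0 := by exact_mod_cast h3
    simp only [dif]; linarith
  · have := (Int.cast_le (R := ℝ)).2 (h4 j hj)
    push_cast at this
    simp only [dif, hy]; linarith
  · have := (Int.cast_lt (R := ℝ)).2 h5
    push_cast at this
    rw [hy, div_lt_iff₀ (by positivity)]
    simp only [dif]; linarith
  · rw [Nat.lt_one_iff.1 hq, ← b i hi]; rfl

omit hy in
theorem finish {A : List PV} (h : Good g Y 67108864 A) (h0 : 0 < A.length) {c : ℝ}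
    (hc : (getx (mkCx g.J Y).bias (A.getD 0 PV.zero).x 0 : ℝ) ≤ c * 2 ^ 60) :
    ∀ᶠ n in atTop, ∃ T : Rule n, EA T ≤ ENNReal.ofReal c := by
  filter_upwards [h.2] with n hn
  rw [show ⌊((67108864 : ℕ) : ℝ) / 2 ^ 26 * n⌋₊ = n by norm_num] at hn
  obtain ⟨T, hT⟩ := hn
  exact ⟨T 0, (hT 0 h0).2.1.trans (ENNReal.ofReal_le_ofReal ((div_le_iff₀ (by positivity)).2 hc))⟩

end
end Pool.Agent.MP_3bf126_pr.H16
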