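import Pool.Agent.MP_3bf126_pr.H40.Check

/-! The checker for the controller (rows hold running sums, scale `2^60`). -/

namespace Pool.Agent.MP_3bf126_pr.H16
open H40

structure Row where
  v : PV
  b : Nat

structure Node where
  s : Nat
  a : Nat
  l : List (Nat × Nat)

structure Slab where
  g : Nat
  e : Nat
  N : List Nat

structure Cx where
  J : Nat
  Y : Nat
  bias : Nat
  mask : Nat
  b16 : Nat
  bias1 : Nat
  ones : PV
  ramp : PV
  S : List PV

def dY (Y j : Nat) : Int := Int.ofNat (Nat.mod (Nat.shiftRight Y (Nat.mul 16 j)) 65536)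

def s0i (Y a i : Nat) : Int :=
  128 * dY Y a + 2 * dY Y a * dY Y (min i a) - dY Y (min i a) * dY Y (min i a)

def mkCx (J Y : Nat) : Cx where
  J := J
  Y := Y
  bias := rp 730750818665451459101842416358141509827966271488 (J + 2)
  mask := rp 22300745198530623141535718272648361505980415 (J + 2)
  b16 := rp 11150372599265311570767859136324180752990208 (J + 2)
  bias1 := rp 730750818665451459101842416358141509827966271488 (J + 3)
  ones := pk (J + 2) ((List.range (J + 2)).map fun _ => 1)
  ramp := pk (J + 2) ((List.range (J + 2)).map fun i => Int.ofNat (i + 1))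
  S := (List.range (J + 1)).map fun a => pk (J + 2) ((List.range (J + 2)).map (s0i Y a))

def fP {β : Type} (v : PV) (k : PV → β) : β := fZ v.x fun x => fN v.u fun u => k ⟨x, u⟩

def fC {β : Type} (c : Cx) (k : Cx → β) : β :=
  fN c.bias fun a => fN c.mask fun b => fN c.b16 fun d => fN c.bias1 fun e => fP c.ones fun o =>
    fP c.ramp fun r => fL c.S fun S => k ⟨c.J, c.Y, a, b, d, e, o, r, S⟩

def mkRow (bias : Nat) (v : PV) : Row := ⟨v, (Int.add v.x (Int.ofNat bias)).toNat⟩

def fR {β : Type} (bias : Nat) : List PV → (List Row → β) → β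
  | [], k => k []
  | v :: l, k => fP v fun w => fN (mkRow bias w).b fun b => fR bias l fun l' => k (⟨w, b⟩ :: l')

def dig (b k : Nat) : Nat :=
  Nat.mod (Nat.shiftRight b (Nat.mul 160 k)) 1461501637330902918203684832716283019655932542976

def seg (r : Row) (y : Int) (st e : Nat) (o : PV × Int) : PV × Int :=
  ((PV.smul y r.v).add o.1, Int.add (Int.subNatNat (dig r.b e) (dig r.b st)) o.2)

def lin (cx : Cx) (R : List Row) (me : Row) : Nat → List (Nat × Nat) → PV × Int
  | st, [] => seg me (Int.neg (dY cx.Y st)) st (Nat.succ cx.J) (PV.zero, 0)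
  | st, p :: l => seg (R.getD p.1 (mkRow cx.bias PV.zero)) (Int.sub (dY cx.Y p.2) (dY cx.Y st)) st p.2
      (lin cx R me p.2 l)

def pre (cx : Cx) (c u v : Nat) (a : Nat) (o : PV × Int) : PV :=
  PV.smul (Int.ofNat c) ((o.1.add (PV.smul (Int.ofNat u) (cx.S.getD a PV.zero))).add
    (PV.smul (Int.add (Int.mul 64 o.2) (Int.mul (Int.ofNat v) (Int.mul (dY cx.Y a) (dY cx.Y a)))) cx.ones))

def post (cx : Cx) (e : Nat) (z : PV) : PV :=
  ((z.fl cx.bias cx.mask cx.b16).fl cx.bias cx.mask cx.b16).add (PV.smul (Int.ofNat (Nat.succ e)) cx.ramp)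

def app (cx : Cx) (K : Nat) (N : List Node) (A : List PV) (c u v e : Nat) (k : List PV → Bool) : Bool :=
  fR cx.bias A fun R =>
    fL (zw (fun (nd : Node) (r : Row) (_ : Nat) => pre cx c u v nd.a (lin cx R r nd.a nd.l))
      ⟨0, 0, []⟩ (mkRow cx.bias PV.zero) 0 K N R []) fun Z =>
      Z.all PV.small && fL (Z.map (post cx e)) fun B => B.all PV.small && k B

def okb (K J : Nat) : Nat → List (Nat × Nat) → Bool
  | st, [] => Nat.ble st J
  | st, p :: l => Nat.blt p.1 K && Nat.ble st p.2 && okb K J p.2 l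

def sh (z : PV) : PV := ⟨Int.mul z.x 1461501637330902918203684832716283019655932542976, z.u⟩

def chk (cx : Cx) (e : Nat) (z : PV) : Bool :=
  (((((PV.smul (Int.ofNat e) cx.ones).add (PV.smul (-1) z))).add (sh z)).add
    (PV.single (cx.J + 2) (Int.ofNat z.u))).nn cx.bias1

def decR : Nat → Nat → (List (Nat × Nat) → Bool) → Bool
  | 0, _, k => k []
  | f + 1, n, k => cond (Nat.beq n 0) (k []) (fN (Nat.mod n 256) fun a => fN (Nat.mod (Nat.div n 256) 256)
      fun b => fN (Nat.div n 65536) fun m => decR f m fun l => k ((a, b) :: l))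

def decN : List Nat → (List Node → Bool) → Bool
  | [], k => k []
  | n :: L, k => fN (Nat.mod n 256) fun s => fN (Nat.mod (Nat.div n 256) 256) fun a =>
      decR 99 (Nat.div n 65536) fun l => decN L fun N => k (⟨s, a, l⟩ :: N)

def addL (K : Nat) (A B : List PV) : List PV :=
  zw (fun (a b : PV) (_ : Nat) => a.add b) PV.zero PV.zero 0 K A B []

def core (cx : Cx) (T g e K : Nat) (N : List Node) (A : List PV) (k : Nat → List PV → Bool) : Bool :=
  app cx K N A (60 * g) 9007199254740992 (T * 134217728) 0 fun A1 =>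
  app cx K N A1 (30 * g) 0 (60 * g * 134217728) 0 fun A2 =>
  app cx K N A2 (20 * g) 0 0 0 fun A3 =>
  app cx K N A3 (15 * g) 0 0 0 fun A4 =>
  app cx K N A4 (12 * g) 0 0 0 fun A5 =>
  app cx K N A5 (10 * g) 0 0 e fun A6 =>
  app cx K N A6 (10 * g) 0 0 0 fun Z => Z.all (chk cx e) &&
    fL (addL K A (addL K A1 (addL K A2 (addL K A3 (addL K A4 (addL K A5 (A6.map cx.ramp.add)))))))
      fun B => B.all PV.small && fN (T + 60 * g) fun T' => k T' B

def slab (cx : Cx) (T : Nat) (A : List PV) (s : Slab) (k : Nat → List PV → Bool) : Bool :=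
  decN s.N fun N => fN N.length fun K => fN A.length fun K0 => Nat.blt 0 s.g &&
    N.all (fun nd => Nat.blt nd.s K0 && okb K cx.J nd.a nd.l) &&
    core cx T s.g s.e K N (N.map fun nd => A.getD nd.s PV.zero) k

def run (cx : Cx) : List Slab → Nat → List PV → (Nat → List PV → Bool) → Bool
  | [], T, A, k => k T A
  | s :: l, T, A, k => slab cx T A s fun T' B => run cx l T' B k

def same : List PV → List PV → Bool
  | [], [] => true
  | a :: A, b :: B => decide (a.x = b.x) && Nat.beq a.u b.u && same A B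
  | _, _ => false

def block (J Y T0 : Nat) (A0 : List PV) (l : List Slab) (T1 : Nat) (A1 : List PV) : Bool :=
  fC (mkCx J Y) fun cx => run cx l T0 A0 fun T B => Nat.beq T T1 && same B A1

end Pool.Agent.MP_3bf126_pr.H16
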