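import Pool.Agent.MP_3bf126_pr.H16.Check

namespace Pool.Agent.MP_3bf126_pr.H16
open H40

def YP : Nat := 311694452377215682236147948505331287860470130043603722967728853039924090740209277578814540653920673732298117749033494768683972663171574738956631001205499607500110803150322238214344327907045682074453245586009922724307336063716844685998976598241289662030461056450560

def P0 : List Int := [2690150177415976278, 3939653205141138092, 4028022946820085079, 4133911673307485527, 4222023142440872621, 4327601941873601197, 4450563546045306200, 4573295052858239662, 4695796462312401582, 4835516321249274542, 4974935644860405081, 5131423150291375449, 5304852049201638063, 5495081465657251162, 5684742682512632496, 5890997798876916400, 6096576710758279856, 6335564127287290544, 6573631154381215067, 6844580749302737585, 7131147503924499804, 7416357153715956402, 7733514894306530653, 8082085397147243869, 8445033351469509299, 8822048830218655070, 9229030744962804404, 9665274716032248500, 10114060055577537204, 10606635170592544095, 11126030492411188575, 11671316239869455029, 12241506281429751136, 12865829802366118582, 13512127397978527073, 14179187535235077473, 14909212787416410807, 15655985617124545890, 16459975823652640098, 17289798819937342818, 18156310159111662264, 19068970722562583224, 20022920290569114979, 21012946453575412409, 22033484612190775993, 23101676796557044409, 24197482342648206692, 25312702271108852410,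 26458768440891714234, 27613663229031131834, 28783587301466133861, 29952438538947177147, 31102973727159790267, 32223677320927029947, 33262196859014392507, 48761701095776574865]

def st0 : List PV := [pk 56 P0]

end Pool.Agent.MP_3bf126_pr.H16
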