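import Pool.Agent.MP_3bf126_pr.H16.Chain
import Pool.Agent.MP_3bf126_pr.H16.Blk22
import Pool.Agent.MP_3bf126_pr.H16.Blk23
import Pool.Agent.MP_3bf126_pr.H16.Blk24

/-! The controller has expected rank at most `2.3174` for all large `n`. -/

namespace Pool.Agent.MP_3bf126_pr.H16
open H40 Filter

lemma grid_mono : ∀ j < 55, ∀ i < j + 1, dY YP i ≤ dY YP j := by decide +kernel

noncomputable def gr : Gr where
  J := 54
  y j := dY YP j / 64
  y0 := by rw [show dY YP 0 = 0 by decide +kernel]; simp
  mono i j a b := div_le_div_of_nonneg_right (Int.cast_le.2 (grid_mono j (by omega) i (by omega)))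
    (by norm_num)
  last := by rw [show dY YP (54 + 1) = 0 by decide +kernel]; simp

theorem ev_main : ∀ᶠ n in atTop, ∃ T : Rule n, EA T ≤ ENNReal.ofReal 2.3174 := by
  have hy : ∀ j, gr.y j = dY YP j / 64 := fun _ => rfl
  have h0 : Good gr YP 3358744 st0 := start hy (P := P0) (by norm_num) (by decide +kernel)
    (by decide +kernel) (by decide +kernel) (by decide +kernel) (by decide +kernel) (by decide +kernel)
  have h1 := block_sound hy h0 blk1
  have h2 := block_sound hy h1 blk2
  have h3 := block_sound hy h2 blk3
  have h4 := block_sound hy h3 blk4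
  have h5 := block_sound hy h4 blk5
  have h6 := block_sound hy h5 blk6
  have h7 := block_sound hy h6 blk7
  have h8 := block_sound hy h7 blk8
  have h9 := block_sound hy h8 blk9
  have h10 := block_sound hy h9 blk10
  have h11 := block_sound hy h10 blk11
  have h12 := block_sound hy h11 blk12
  have h13 := block_sound hy h12 blk13
  have h14 := block_sound hy h13 blk14
  have h15 := block_sound hy h14 blk15
  have h16 := block_sound hy h15 blk16
  have h17 := block_sound hy h16 blk17
  have h18 := block_sound hy h17 blk18
  have h19 := block_sound hy h18 blk19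
  have h20 := block_sound hy h19 blk20
  have h21 := block_sound hy h20 blk21
  have h22 := block_sound hy h21 blk22
  have h23 := block_sound hy h22 blk23
  have h24 := block_sound hy h23 blk24
  refine finish h24 (by decide +kernel) ?_
  have : getx (mkCx 54 YP).bias (st24.getD 0 PV.zero).x 0 * 10000 ≤ 23174 * 2 ^ 60 := by
    decide +kernel
  have := (Int.cast_le (R := ℝ)).2 this
  push_cast at this
  change ((getx (mkCx 54 YP).bias (st24.getD 0 PV.zero).x 0 : ℤ) : ℝ) ≤ _
  linarith

end Pool.Agent.MP_3bf126_pr.H16
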