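import Pool.Agent.MP_3bf126_pr.H16.Ach

/-! A time slab: polynomial supersolutions of the step recursion. -/

namespace Pool.Agent.MP_3bf126_pr.H16
open MeasureTheory H40 Filter Topology Finset
open scoped ENNReal
noncomputable section

def be (σ : ℝ) (m k : ℕ) : ℝ := m.descFactorial k * σ ^ k

lemma be_succ (σ : ℝ) (m k : ℕ) : be σ (m + 1) (k + 1) = be σ m (k + 1) + σ * ((k + 1) * be σ m k) := by
  unfold be
  rw [Nat.succ_descFactorial_succ, Nat.descFactorial_succ]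
  rcases le_or_gt k m with h | h
  · push_cast [h]; ring
  · simp [Nat.descFactorial_of_lt h]

lemma be_top (σ : ℝ) (m k : ℕ) : be σ m (k + 1) = ((m - k : ℕ) * σ) * be σ m k := by
  unfold be
  rw [Nat.descFactorial_succ]
  push_cast; ring

lemma be_nonneg {σ : ℝ} (h : 0 ≤ σ) (m k : ℕ) : 0 ≤ be σ m k := by unfold be; positivity

lemma be_lim {σ : ℕ → ℝ} {M : ℕ → ℕ} (h0 : ∀ n, 0 ≤ σ n) (h1 : Tendsto σ atTop (𝓝 0))
    (h2 : Tendsto (fun n => M n * σ n) atTop (𝓝 1)) (k : ℕ) :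
    Tendsto (fun n => be (σ n) (M n) k) atTop (𝓝 1) := by
  induction k with
  | zero => simp [be]
  | succ k ih =>
    simp only [be_top]
    have h3 : Tendsto (fun n => M n * σ n - k * σ n) atTop (𝓝 1) := by
      simpa using h2.sub (h1.const_mul (k : ℝ))
    have h4 : Tendsto (fun n => ((M n - k : ℕ) : ℝ) * σ n) atTop (𝓝 1) := by
      refine tendsto_of_tendsto_of_tendsto_of_le_of_le h3 h2 (fun n => ?_) fun n => ?_
      · rw [← sub_mul]
        refine mul_le_mul_of_nonneg_right ?_ (h0 n)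
        rw [sub_le_iff_le_add, ← Nat.cast_add]
        exact Nat.cast_le.2 le_tsub_add
      · exact mul_le_mul_of_nonneg_right (Nat.cast_le.2 (Nat.sub_le _ _)) (h0 n)
    simpa using h4.mul ih

lemma floor_lim {t : ℝ} (ht : 0 ≤ t) :
    Tendsto (fun n : ℕ => (⌊t * n⌋₊ : ℝ) * (n : ℝ)⁻¹) atTop (𝓝 t) :=
  (tendsto_nat_floor_mul_div_atTop ht).comp tendsto_natCast_atTop_atTop

namespace Gr
variable {g : Gr}

lemma L_sum (s : Finset ℕ) (c : ℕ → ℝ) (D : ℕ → ℕ → ℕ → ℝ) (q a : ℕ) (l : List (ℕ × ℕ)) (i : ℕ) :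
    g.L (fun q i => ∑ k ∈ s, c k * D k q i) q a l i = ∑ k ∈ s, c k * g.L (D k) q a l i := by
  simp only [L, ← gs_smul, ← gs_sum]
  congr 1
  funext u st e
  split_ifs
  · rw [sum_comm, mul_sum, ← sum_add_distrib]
    exact sum_congr rfl fun k _ => by rw [← mul_sum]; ring
  · rw [mul_sum, add_zero]
    exact sum_congr rfl fun k _ => by ring

def Ev (g : Gr) (t : ℝ) (K : ℕ) (W : ℕ → ℕ → ℝ) : Prop :=
  ∀ᶠ n : ℕ in atTop, g.Ach (n : ℝ)⁻¹ ⌊t * n⌋₊ K W

lemma Ev.map {t : ℝ} {K K' : ℕ} {W : ℕ → ℕ → ℝ} (h : g.Ev t K W) (s : ℕ → ℕ)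
    (H : ∀ q < K', s q < K) : g.Ev t K' fun q => W (s q) := Eventually.mono h fun _ h => h.map s H

lemma Ev.le {t : ℝ} {K : ℕ} {W W' : ℕ → ℕ → ℝ} (h : g.Ev t K W)
    (H : ∀ q < K, ∀ i ≤ g.J + 1, W q i ≤ W' q i) : g.Ev t K W' :=
  Eventually.mono h fun _ h => h.mono (by positivity) H

def src (g : Gr) (t h : ℝ) (k a i : ℕ) : ℝ :=
  if k = 0 then h * (g.s0 a i + t * g.s1 a i) else if k = 1 then h ^ 2 * g.s1 a i else 0

variable {K p : ℕ} {t h e : ℝ} {a : ℕ → ℕ} {l : ℕ → List (ℕ × ℕ)} {D : ℕ → ℕ → ℕ → ℝ}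
  (hl : ∀ q < K, OK K g.J (a q) (l q)) (hh : 0 < h) (he : 0 ≤ e)
  (H1 : ∀ k < p + 2, ∀ q < K, ∀ i ≤ g.J + 1, h * g.L (D k) q (a q) (l q) i + g.src t h k (a q) i +
    (if k = p + 1 then e else 0) ≤ (k + 1) * D (k + 1) q i)
  (H2 : ∀ q < K, ∀ i ≤ g.J + 1, h * g.L (D (p + 2)) q (a q) (l q) i ≤ e)
include hl hh he H1 H2

lemma slab_fin {σ : ℝ} (hσ : 0 ≤ σ) (hJ : σ * h * g.y g.J ≤ 1) {r : ℕ} (hr : r * (σ * h) ≤ t)
    (h0 : g.Ach (σ * h) r K (D 0)) (m : ℕ) (hm : (m - 1) * σ ≤ 1) :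
    g.Ach (σ * h) (r + m) K fun q i => ∑ k ∈ range (p + 3), be σ m k * D k q i := by
  have hδ := mul_nonneg hσ hh.le
  induction m with
  | zero =>
    refine h0.mono hδ fun q _ i _ => ?_
    rw [sum_range_succ']
    simp [be]
  | succ m ih =>
    have hm' : m * σ ≤ 1 := by simpa using hm
    refine ((ih (by linarith)).step hδ hJ a l hl (t := t + m * (σ * h))
      (by push_cast; linarith)).mono hδ fun q hq i hi => ?_
    rw [L_sum, sum_range_succ' (fun k => be σ (m + 1) k * D k q i),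
      sum_range_succ' (fun k => be σ m k * D k q i), sum_range_succ _ (p + 2)]
    simp only [be_succ, add_mul, sum_add_distrib]
    have e1 : ∑ k ∈ range (p + 2), be σ m k * (h * g.L (D k) q (a q) (l q) i + g.src t h k (a q) i +
        (if k = p + 1 then e else 0)) ≤ ∑ k ∈ range (p + 2), be σ m k * ((k + 1) * D (k + 1) q i) :=
      sum_le_sum fun k hk => mul_le_mul_of_nonneg_left (H1 k (mem_range.1 hk) q hq i hi)
        (be_nonneg hσ m k)
    have e2 : ∑ k ∈ range (p + 2), be σ m k * g.src t h k (a q) i =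
        h * (g.s0 (a q) i + t * g.s1 (a q) i) + m * σ * (h ^ 2 * g.s1 (a q) i) := by
      rw [sum_range_succ', sum_range_succ']
      simp [src, be, add_comm]
    have e3 : ∑ k ∈ range (p + 2), be σ m k * (if k = p + 1 then e else 0) = be σ m (p + 1) * e := by
      simp
    have e4 : be σ m (p + 2) * (h * g.L (D (p + 2)) q (a q) (l q) i) ≤ be σ m (p + 1) * e := by
      refine (mul_le_mul_of_nonneg_left (H2 q hq i hi) (be_nonneg hσ _ _)).trans
        (mul_le_mul_of_nonneg_right ?_ he)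
      rw [be_top]
      refine mul_le_of_le_one_left (be_nonneg hσ _ _) (le_trans ?_ hm')
      exact mul_le_mul_of_nonneg_right (Nat.cast_le.2 (Nat.sub_le _ _)) hσ
    simp only [mul_add, sum_add_distrib, e2, e3] at e1
    have e5 : ∑ k ∈ range (p + 2), be σ m k * (h * g.L (D k) q (a q) (l q) i) =
        h * ∑ k ∈ range (p + 2), be σ m k * g.L (D k) q (a q) (l q) i := by
      rw [mul_sum]
      exact sum_congr rfl fun k _ => by ring
    have e6 : ∑ k ∈ range (p + 2), σ * (k * be σ m k + 1 * be σ m k) * D (k + 1) q i =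
        σ * ∑ k ∈ range (p + 2), be σ m k * ((k + 1) * D (k + 1) q i) := by
      rw [mul_sum]
      exact sum_congr rfl fun k _ => by ring
    have e7 : be σ (m + 1) 0 = be σ m 0 := by simp [be]
    rw [e6, e7]
    rw [e5] at e1
    have := mul_le_mul_of_nonneg_left (add_le_add e1 e4) hσ
    linarith

theorem slab (ht : 0 ≤ t) (h0 : g.Ev t K (D 0)) {W : ℕ → ℕ → ℝ}
    (H3 : ∀ q < K, ∀ i ≤ g.J + 1, ∑ k ∈ range (p + 3), D k q i < W q i) : g.Ev (t + h) K W := by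
  have fl : ∀ n : ℕ, ⌊t * n⌋₊ ≤ ⌊(t + h) * n⌋₊ := fun n => Nat.floor_le_floor (by
    have : 0 ≤ h * n := by positivity
    linarith)
  have i0 : Tendsto (fun n : ℕ => (n : ℝ)⁻¹) atTop (𝓝 0) := tendsto_inv_atTop_nhds_zero_nat
  have l1 : Tendsto (fun n : ℕ => (n : ℝ)⁻¹ / h) atTop (𝓝 0) := by simpa using i0.div_const h
  have l2 : Tendsto (fun n : ℕ => ((⌊(t + h) * n⌋₊ - ⌊t * n⌋₊ : ℕ) : ℝ) * ((n : ℝ)⁻¹ / h)) atTop
      (𝓝 1) := by
    have := ((floor_lim (add_nonneg ht hh.le)).sub (floor_lim ht)).div_const h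
    rw [add_sub_cancel_left, div_self hh.ne'] at this
    refine this.congr fun n => ?_
    rw [Nat.cast_sub (fl n)]
    ring
  have l3 : ∀ᶠ n : ℕ in atTop, ∀ q ∈ range K, ∀ i ∈ range (g.J + 2), ∑ k ∈ range (p + 3),
      be ((n : ℝ)⁻¹ / h) (⌊(t + h) * n⌋₊ - ⌊t * n⌋₊) k * D k q i < W q i := by
    simp only [eventually_all_finset]
    intro q hq i hi
    refine Tendsto.eventually_lt_const (H3 q (mem_range.1 hq) i (by have := mem_range.1 hi; omega))
      (tendsto_finsetSum _ fun k _ => ?_)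
    simpa using (be_lim (fun n => by positivity) l1 l2 k).mul_const (D k q i)
  have l4 : ∀ᶠ n : ℕ in atTop, (n : ℝ)⁻¹ * g.y g.J < 1 :=
    Tendsto.eventually_lt_const one_pos (by simpa using i0.mul_const (g.y g.J))
  filter_upwards [h0, l3, l4, eventually_gt_atTop 0] with n a0 a3 a4 hn
  have hn' : (0 : ℝ) < n := by exact_mod_cast hn
  have e : (n : ℝ)⁻¹ / h * h = (n : ℝ)⁻¹ := div_mul_cancel₀ _ hh.ne'
  have f0 := Nat.floor_le (mul_nonneg ht hn'.le)
  have := slab_fin hl hh he H1 H2 (σ := (n : ℝ)⁻¹ / h) (r := ⌊t * n⌋₊) (by positivity)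
    (by rw [e]; exact a4.le) (by rw [e, ← div_eq_mul_inv, div_le_iff₀ hn']; exact f0)
    (by rw [e]; exact a0) (⌊(t + h) * n⌋₊ - ⌊t * n⌋₊) (by
      have f1 := Nat.floor_le (mul_nonneg (add_nonneg ht hh.le) hn'.le)
      have f2 := Nat.lt_floor_add_one (t * n)
      rw [Nat.cast_sub (fl n), ← mul_div_assoc, div_le_one hh, ← div_eq_mul_inv, div_le_iff₀ hn']
      linarith)
  rw [e, Nat.add_sub_cancel' (fl n)] at this
  exact this.mono (by positivity) fun q hq i hi =>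
    (a3 q (mem_range.2 hq) i (mem_range.2 (by omega))).le

end Gr

end
end Pool.Agent.MP_3bf126_pr.H16
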