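import Pool.Agent.MP_3bf126_pr.H16.Term
import Pool.Agent.MP_3bf126_pr.H16.Check
import Pool.Agent.MP_3bf126_pr.H40.Lists

/-! Soundness of one application of the operator in the checker. -/

namespace Pool.Agent.MP_3bf126_pr.H16
open H40 Finset
noncomputable section

def dif (f : ℕ → ℝ) : ℕ → ℝ
  | 0 => f 0
  | i + 1 => f (i + 1) - f i

lemma dif_congr {f f' : ℕ → ℝ} {i : ℕ} (h : ∀ k ≤ i, f k = f' k) : dif f i = dif f' i := by
  cases i with
  | zero => exact h 0 le_rfl
  | succ i => simp only [dif, h _ le_rfl, h i i.le_succ]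

lemma sum_dif (f : ℕ → ℝ) {st e : ℕ} (h : st ≤ e) : ∑ j ∈ Ico st e, dif f (j + 1) = f e - f st :=
  sum_Ico_sub f h

variable (J Y : ℕ)

def PX (v : PV) (k : ℕ) : ℝ := getx (mkCx J Y).bias v.x k

def VL (K : ℕ) (A : List PV) : Prop :=
  A.length = K ∧ ∀ q < K, RepR (J + 2) (A.getD q PV.zero) (PX J Y (A.getD q PV.zero))

def WP (A : List PV) (q i : ℕ) : ℝ := dif (PX J Y (A.getD q PV.zero)) i / 2 ^ 60

variable {J Y}

lemma valid {v : PV} {f : ℕ → ℝ} (h : RepR (J + 2) v f) (hs : v.small = true) :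
    RepR (J + 2) v (PX J Y v) ∧ ∀ i ≤ J + 1, dif (PX J Y v) i = dif f i :=
  ⟨h.congr fun _ hk => (h.get hs hk).symm, fun _ hi => dif_congr fun _ hk => h.get hs (by omega)⟩

lemma fP_eq {β : Type} (v : PV) (k : PV → β) : fP v k = k v := by simp only [fP, fZ_eq, fN_eq]

lemma fC_eq {β : Type} (c : Cx) (k : Cx → β) : fC c k = k c := by
  simp only [fC, fP_eq, fN_eq, fL_eq]

lemma fR_eq {β : Type} (b : ℕ) (l : List PV) (k : List Row → β) : fR b l k = k (l.map (mkRow b)) := by
  induction l generalizing k with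
  | nil => rfl
  | cons v l ih => simp only [fR, fP_eq, fN_eq, ih]; rfl

lemma dig_sub (v : PV) (e st : ℕ) : ((Int.subNatNat (dig (mkRow (mkCx J Y).bias v).b e)
    (dig (mkRow (mkCx J Y).bias v).b st) : ℤ) : ℝ) = PX J Y v e - PX J Y v st := by
  simp only [PX, getx, Int.subNatNat_eq_coe, dig, mkRow, zo]
  push_cast
  ring

lemma row_getD (b : ℕ) (A : List PV) (q : ℕ) :
    (A.map (mkRow b)).getD q (mkRow b PV.zero) = mkRow b (A.getD q PV.zero) := List.getD_map _ _ _

lemma lin_sound {K q : ℕ} {A : List PV} (hA : VL J Y K A) (hq : q < K) (hY : dY Y (J + 1) = 0)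
    {st : ℕ} {l : List (ℕ × ℕ)} (h : OK K J st l) :
    RepR (J + 2) (lin (mkCx J Y) (A.map (mkRow (mkCx J Y).bias))
      (mkRow (mkCx J Y).bias (A.getD q PV.zero)) st l).1
      (fun i => gs (fun k a e => ((dY Y e : ℝ) - dY Y a) * PX J Y (A.getD k PV.zero) i) q J st l) ∧
    ((lin (mkCx J Y) (A.map (mkRow (mkCx J Y).bias))
      (mkRow (mkCx J Y).bias (A.getD q PV.zero)) st l).2 : ℝ) =
      gs (fun k a e => PX J Y (A.getD k PV.zero) e - PX J Y (A.getD k PV.zero) a) q J st l := by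
  induction l generalizing st with
  | nil =>
    refine ⟨(((hA.2 q hq).smul _).add ((rep_zero _).real (f := fun _ => 0) fun _ _ => by simp)).congr
      fun i _ => ?_, ?_⟩
    · simp only [gs, hY, zn]
      change ((-dY Y st : ℤ) : ℝ) * _ + 0 = _
      push_cast; ring
    · simp only [lin, seg, za, gs, add_zero, dig_sub]
      rfl
  | cons p l ih =>
    obtain ⟨a, b⟩ := ih h.2.2
    simp only [lin, seg, row_getD, za, zs, gs]
    refine ⟨(((hA.2 p.1 h.1).smul _).add a).congr fun i _ => ?_, ?_⟩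
    · change ((dY Y p.2 - dY Y st : ℤ) : ℝ) * _ + _ = _
      push_cast; ring
    · rw [Int.cast_add, b, dig_sub]

variable {g : Gr} (hJ : g.J = J) (hy : ∀ j, g.y j = dY Y j / 64)
include hJ hy

lemma L_eq {K q : ℕ} (P : ℕ → ℕ → ℝ) (i : ℕ) {st : ℕ} {l : List (ℕ × ℕ)} (h : OK K J st l) :
    2 ^ 66 * g.L (fun q i => dif (P q) i / 2 ^ 60) q st l i =
      dif (fun i => gs (fun k a e => ((dY Y e : ℝ) - dY Y a) * P k i) q J st l +
        64 * gs (fun k a e => P k e - P k a) q J st l) i := by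
  subst hJ
  unfold Gr.L
  induction l generalizing st with
  | nil =>
    simp only [gs, ← sum_div, sum_dif _ (h.le.trans g.J.le_succ), hy]
    cases i <;> simp only [dif, if_true, Nat.succ_ne_zero, if_false] <;> ring
  | cons p l ih =>
    have e := ih h.2.2
    rw [gs, mul_add, e]
    simp only [gs, ← sum_div, sum_dif _ h.2.1, hy]
    cases i <;> simp only [dif, if_true, Nat.succ_ne_zero, if_false] <;> ring

omit hJ in
lemma s0_eq (a i : ℕ) : dif (fun i => (s0i Y a i : ℝ)) i = 2 ^ 13 * g.s0 a i := by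
  have h0 : (dY Y 0 : ℝ) = 0 := by
    have := hy 0
    rw [g.y0] at this
    linarith
  cases i with
  | zero => simp only [dif, s0i, Gr.s0, if_true, hy, Nat.zero_min]; push_cast; rw [h0]; ring
  | succ i =>
    simp only [dif, s0i, Gr.s0, if_neg i.succ_ne_zero, hy, Nat.add_sub_cancel]
    split_ifs with h
    · rw [min_eq_left h, min_eq_left (by omega)]
      push_cast; ring
    · rw [min_eq_right (by omega), min_eq_right (by omega)]
      push_cast; ring

omit hJ hy in
lemma rep_list (f : ℕ → ℤ) : RepR (J + 2) (pk (J + 2) ((List.range (J + 2)).map f)) fun i => f i :=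
  (repR_pk _ _).congr fun i hi => by simp [hi]

omit hJ hy in
lemma post_sound {z : PV} {f : ℕ → ℝ} (h : RepR (J + 2) z f) (hs : z.small = true) (e : ℕ) :
    ∃ f', RepR (J + 2) (post (mkCx J Y) e z) f' ∧ ∀ i ≤ J + 1, dif f i / 2 ^ 32 + e ≤ dif f' i := by
  obtain ⟨u, h1, h2⟩ := h
  have h3 := h1.fl hs
  have h4 := h3.fl (by
    simp only [PV.small, Nat.blt_eq] at hs ⊢
    change z.u / 65536 + 1 < _
    omega)
  have k : ∀ i < J + 2, f i / 2 ^ 32 - 1 ≤ (u i / 65536 / 65536 : ℤ) ∧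
      ((u i / 65536 / 65536 : ℤ) : ℝ) ≤ f i / 2 ^ 32 := fun i hi => by
    rw [← h2 i hi, sub_le_iff_le_add, div_le_iff₀ (by positivity), le_div_iff₀ (by positivity)]
    constructor
    · exact_mod_cast (show u i ≤ (u i / 65536 / 65536 + 1) * 4294967296 by omega)
    · exact_mod_cast (show u i / 65536 / 65536 * 4294967296 ≤ u i by omega)
  refine ⟨_, (h4.real fun _ _ => rfl).add ((rep_list fun i => Int.ofNat (i + 1)).smul _),
    fun i hi => ?_⟩
  cases i with
  | zero =>
    have := k 0 (by omega)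
    simp only [dif, zo, Nat.succ_eq_add_one, Nat.cast_add, Int.cast_add, Int.cast_natCast,
      Nat.cast_one, Int.cast_one, Nat.cast_zero, Int.cast_zero]
    linarith [this.1]
  | succ i =>
    have a := k i (by omega)
    have b := k (i + 1) (by omega)
    simp only [dif, zo, Nat.succ_eq_add_one, Nat.cast_add, Int.cast_add, Int.cast_natCast,
      Nat.cast_one, Int.cast_one]
    linarith [a.2, b.1]

/-- default node -/
def n0 : Node := ⟨0, 0, []⟩

theorem app_sound {K : ℕ} {N : List Node} {A : List PV} {c u v e : ℕ} {k : List PV → Bool}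
    (hA : VL J Y K A) (hN : ∀ q < K, OK K J (N.getD q n0).a (N.getD q n0).l)
    (h : app (mkCx J Y) K N A c u v e k = true) : ∃ B, VL J Y K B ∧ k B = true ∧ ∀ q < K, ∀ i ≤ J + 1,
      c / 2 ^ 26 * (g.L (WP J Y A) q (N.getD q n0).a (N.getD q n0).l i +
        u / 2 ^ 53 * g.s0 (N.getD q n0).a i + v / 2 ^ 53 * g.s1 (N.getD q n0).a i) + e / 2 ^ 60 ≤
        WP J Y B q i := by
  simp only [app, fR_eq, fL_eq, Bool.and_eq_true] at h
  obtain ⟨h1, h2, h3⟩ := h
  have hY : dY Y (J + 1) = 0 := by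
    have := hy (J + 1)
    rw [← hJ, g.last, hJ] at this
    exact_mod_cast (show (dY Y (J + 1) : ℝ) = 0 by linarith)
  generalize hZ : zw _ _ _ _ K N _ _ = Z at h1 h2 h3
  have l1 : Z.length = K := hZ ▸ zw_length ..
  have key : ∀ q < K, ∃ f', RepR (J + 2) ((Z.map (post (mkCx J Y) e)).getD q PV.zero) f' ∧
      ∀ i ≤ J + 1, c / 2 ^ 26 * (g.L (WP J Y A) q (N.getD q n0).a (N.getD q n0).l i +
        u / 2 ^ 53 * g.s0 (N.getD q n0).a i + v / 2 ^ 53 * g.s1 (N.getD q n0).a i) + e / 2 ^ 60 ≤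
        dif f' i / 2 ^ 60 := fun q hq => by
    have e1 : (Z.map (post (mkCx J Y) e)).getD q PV.zero = post (mkCx J Y) e (Z.getD q PV.zero) := by
      simp [l1, hq]
    have s1 := all_getD h1 (l1 ▸ hq) PV.zero
    obtain ⟨a, b⟩ := lin_sound hA hq hY (hN q hq)
    have ha := (hN q hq).le
    have e2 := L_eq hJ hy (q := q) (fun k => PX J Y (A.getD k PV.zero)) (h := hN q hq)
    have e3 := s0_eq hy (N.getD q n0).a
    rw [e1]
    rw [← hZ, zw_getD _ _ _ _ hq, row_getD] at s1 ⊢
    change (pre _ c u v (N.getD q n0).a (lin _ _ _ (N.getD q n0).a (N.getD q n0).l)).small = true at s1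
    change ∃ f', RepR _ (post _ e (pre _ c u v (N.getD q n0).a
      (lin _ _ _ (N.getD q n0).a (N.getD q n0).l))) f' ∧ _
    generalize (N.getD q n0).a = a0 at *
    generalize (N.getD q n0).l = l0 at *
    have r1 : RepR (J + 2) ((mkCx J Y).S.getD a0 PV.zero) fun i => s0i Y a0 i := by
      have : (mkCx J Y).S.getD a0 PV.zero = pk (J + 2) ((List.range (J + 2)).map (s0i Y a0)) := by
        simp [mkCx, Nat.lt_succ_of_le ha]
      exact this ▸ rep_list _
    obtain ⟨f', p1, p2⟩ := post_sound (Y := Y) (((a.add (r1.smul _)).add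
      ((rep_list fun _ => 1).smul _)).smul _) s1 e
    refine ⟨f', p1, fun i hi => le_trans (le_of_eq ?_) (div_le_div_of_nonneg_right (p2 i hi)
      (by positivity))⟩
    have e4 : g.L (WP J Y A) q a0 l0 i = _ := eq_div_of_mul_eq (by positivity)
      ((mul_comm _ _).trans (e2 i))
    have e5 : g.s0 a0 i = _ := eq_div_of_mul_eq (by positivity) ((mul_comm _ _).trans (e3 i).symm)
    rw [e4, e5]
    simp only [za, zm, zo, Int.cast_add, Int.cast_mul, b, Int.cast_natCast, Int.cast_ofNat,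
      Int.cast_one, Gr.s1, hy]
    change _ = (dif (fun i => _ * (_ + (_ + _ * ((dY Y a0 : ℝ) * dY Y a0)) * 1)) i / _ + _) / _
    cases i <;> simp only [dif, if_true, Nat.succ_ne_zero, if_false] <;> ring
  choose! F f1 f2 using key
  have l2 : (Z.map (post (mkCx J Y) e)).length = K := by simp [l1]
  refine ⟨_, ⟨l2, fun q hq => (valid (f1 q hq) (all_getD h2 (l2 ▸ hq) _)).1⟩, h3, fun q hq i hi => ?_⟩
  rw [WP, (valid (f1 q hq) (all_getD h2 (l2 ▸ hq) _)).2 i hi]
  exact f2 q hq i hi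

end
end Pool.Agent.MP_3bf126_pr.H16
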