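import Pool.Agent.MP_3bf126_pr.H40.Prob

/-! Robbins' problem, upper bound: composing stopping rules (small values are good). -/

namespace Pool.Agent.MP_3bf126_pr.H16
open MeasureTheory Set H40
open scoped ENNReal
noncomputable section

/-- expected rank when small values are good -/
def EA {r : ℕ} (T : Rule r) : ℝ≥0∞ := ∫⁻ s, (1 + ∑ j, ind (s j) (s (T.τ s))) ∂Pn r

/-- probability that the accepted value exceeds `v` -/
def EF {r : ℕ} (T : Rule r) (v : ℝ) : ℝ≥0∞ := ∫⁻ s, ind v (s (T.τ s)) ∂Pn r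

lemma meas_EF {r : ℕ} (T : Rule r) : Measurable (EF T) := by
  have h : Measurable fun p : ℝ × (Fin r → ℝ) => ind p.1 (p.2 (T.τ p.2)) :=
    meas_ind measurable_fst ((meas_sel T).comp measurable_snd)
  exact h.lintegral_prod_right'

lemma meas_tail (r : ℕ) : Measurable fun s : Fin (r + 1) → ℝ => Fin.tail s :=
  measurable_pi_iff.2 fun i => measurable_pi_apply i.succ

/-- accept the first value below `c`, otherwise continue with the rule chosen by `nx` -/
def comp {r : ℕ} (c : ℝ) (nx : ℝ → ℕ) (hnx : Measurable nx) (T : ℕ → Rule r) : Rule (r + 1) where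
  τ s := if s 0 < c then 0 else ((T (nx (s 0))).τ (Fin.tail s)).succ
  meas := by
    have h1 : Measurable fun p : (Fin r → ℝ) × ℕ => (T p.2).τ p.1 :=
      measurable_from_prod_countable_left fun k => (T k).meas
    have h2 := h1.comp ((meas_tail r).prodMk (hnx.comp (measurable_pi_apply 0)))
    exact Measurable.ite (measurableSet_lt (measurable_pi_apply 0) measurable_const)
      measurable_const ((Measurable.of_discrete (f := fun i : Fin r => i.succ)).comp h2)
  adapt := by
    intro s s' h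
    have h0 : s 0 = s' 0 := h 0 (Fin.zero_le _)
    rw [← h0]
    by_cases hc : s 0 < c
    · simp [hc]
    · simp only [hc, if_false] at h ⊢
      rw [(T (nx (s 0))).adapt (Fin.tail s) (Fin.tail s')
        fun i hi => h i.succ (Fin.succ_le_succ_iff.2 hi)]

lemma lint_cons {r : ℕ} {f : (Fin (r + 1) → ℝ) → ℝ≥0∞} (hf : Measurable f) :
    ∫⁻ s, f s ∂Pn (r + 1) = ∫⁻ y, ∫⁻ w, f (Fin.cons y w) ∂Pn r ∂U := by
  have hm := (measurePreserving_piFinSuccAbove (fun _ : Fin (r + 1) => U) 0).symm
  have e := hm.lintegral_comp hf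
  change ∫⁻ s, f s ∂(Measure.pi fun _ => U) = _
  have hme : Measurable fun a : ℝ × (Fin r → ℝ) =>
      f ((MeasurableEquiv.piFinSuccAbove (fun _ => ℝ) 0).symm a) := hf.comp hm.measurable
  rw [← e, lintegral_prod _ hme.aemeasurable]
  refine lintegral_congr fun y => lintegral_congr fun w => ?_
  congr 1
  simp [MeasurableEquiv.piFinSuccAbove, Fin.insertNthEquiv]

lemma lint_U {c : ℝ} (h0 : 0 ≤ c) (h1 : c ≤ 1) (f g : ℝ → ℝ≥0∞) :
    ∫⁻ y, (if y < c then f y else g y) ∂U = (∫⁻ y in Ico 0 c, f y) + ∫⁻ y in Ico c 1, g y := by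
  rw [U, ← Measure.restrict_congr_set Ico_ae_eq_Icc, ← Ico_union_Ico_eq_Ico h0 h1,
    lintegral_union measurableSet_Ico Ico_disjoint_Ico_same]
  congr 1
  · exact setLIntegral_congr_fun measurableSet_Ico fun y hy => if_pos hy.2
  · exact setLIntegral_congr_fun measurableSet_Ico fun y hy => if_neg (not_lt.2 hy.1)

lemma lint_ind_lt {r : ℕ} (j : Fin r) {y : ℝ} (h1 : y ≤ 1) :
    ∫⁻ w, ind (w j) y ∂Pn r = ENNReal.ofReal y := by
  have hm : MeasurePreserving (Function.eval j) (Pn r) U := measurePreserving_eval (fun _ => U) j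
  have h2 : ∫⁻ w, ind (w j) y ∂Pn r = ∫⁻ v, ind v y ∂U :=
    hm.lintegral_comp (f := fun v => ind v y) (meas_ind measurable_id measurable_const)
  rw [h2, ← U_Iio h1, ← lintegral_indicator_one measurableSet_Iio]
  refine lintegral_congr fun v => ?_
  simp [ind, indicator]

variable {r : ℕ} {c : ℝ} {nx : ℝ → ℕ} (hnx : Measurable nx) (T : ℕ → Rule r)

lemma comp_lt {y : ℝ} (w : Fin r → ℝ) (h : y < c) : (comp c nx hnx T).τ (Fin.cons y w) = 0 := by
  simp [comp, h]

lemma comp_ge {y : ℝ} (w : Fin r → ℝ) (h : ¬ y < c) :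
    (comp c nx hnx T).τ (Fin.cons y w) = ((T (nx y)).τ w).succ := by
  simp [comp, h]

lemma EF_comp (h0 : 0 ≤ c) (h1 : c ≤ 1) {v : ℝ} (hv : 0 ≤ v) :
    EF (comp c nx hnx T) v = ENNReal.ofReal (c - v) + ∫⁻ y in Ico c 1, EF (T (nx y)) v := by
  rw [EF, lint_cons (meas_ind measurable_const (meas_sel _))]
  have e : ∀ y, ∫⁻ w, ind v ((Fin.cons y w : Fin (r + 1) → ℝ) ((comp c nx hnx T).τ (Fin.cons y w)))
      ∂Pn r = if y < c then ind v y else EF (T (nx y)) v := fun y => by
    split_ifs with h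
    · simp [comp_lt hnx T _ h]
    · simp [comp_ge hnx T _ h, EF]
  simp only [e]
  rw [lint_U h0 h1]
  congr 1
  have e2 : (fun y => ind v y) = (Ioi v).indicator 1 := by
    ext y; simp [ind, indicator]
  rw [e2, lintegral_indicator_one measurableSet_Ioi, Measure.restrict_apply measurableSet_Ioi]
  have : Ioi v ∩ Ico 0 c = Ioo v c := by
    ext x; simp only [mem_inter_iff, mem_Ioi, mem_Ico, mem_Ioo]
    constructor
    · rintro ⟨a, _, b⟩; exact ⟨a, b⟩
    · rintro ⟨a, b⟩; exact ⟨a, by linarith, b⟩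
  rw [this, Real.volume_Ioo]

lemma EA_comp (h0 : 0 ≤ c) (h1 : c ≤ 1) :
    EA (comp c nx hnx T) = (∫⁻ y in Ico 0 c, ENNReal.ofReal (1 + r * y)) +
      ∫⁻ y in Ico c 1, (EA (T (nx y)) + EF (T (nx y)) y) := by
  have hm : ∀ {m : ℕ} (R : Rule m), Measurable fun s : Fin m → ℝ => 1 + ∑ j, ind (s j) (s (R.τ s)) :=
    fun R => measurable_const.add
      (Finset.measurable_sum _ fun j _ => meas_ind (measurable_pi_apply j) (meas_sel R))
  rw [EA, lint_cons (hm _)]
  have e : ∀ y, ∫⁻ w, (1 + ∑ j, ind ((Fin.cons y w : Fin (r + 1) → ℝ) j)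
      ((Fin.cons y w : Fin (r + 1) → ℝ) ((comp c nx hnx T).τ (Fin.cons y w)))) ∂Pn r =
      if y < c then ∫⁻ w, (1 + ∑ j, ind (w j) y) ∂Pn r else EA (T (nx y)) + EF (T (nx y)) y :=
    fun y => by
    split_ifs with h
    · have : ind y y = 0 := by simp [ind]
      simp only [comp_lt hnx T _ h, Fin.sum_univ_succ, Fin.cons_zero, Fin.cons_succ, this, zero_add]
    · simp only [comp_ge hnx T _ h, Fin.sum_univ_succ, Fin.cons_zero, Fin.cons_succ, EA, EF]
      rw [← lintegral_add_left (hm _)]
      refine lintegral_congr fun w => ?_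
      ring
  simp only [e]
  rw [lint_U h0 h1]
  congr 1
  refine setLIntegral_congr_fun measurableSet_Ico fun y hy => ?_
  have hy1 : y ≤ 1 := hy.2.le.trans h1
  rw [lintegral_add_left measurable_const,
    lintegral_finsetSum _ fun j _ => meas_ind (measurable_pi_apply j) measurable_const]
  simp only [lint_ind_lt _ hy1, lintegral_const, measure_univ, mul_one, Finset.sum_const,
    Finset.card_univ, Fintype.card_fin, nsmul_eq_mul]
  rw [ENNReal.ofReal_add zero_le_one (mul_nonneg (Nat.cast_nonneg r) hy.1), ENNReal.ofReal_one,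
    ENNReal.ofReal_mul (Nat.cast_nonneg r), ENNReal.ofReal_natCast]

lemma lint_lin {p q α β : ℝ} (h : p ≤ q) (hp : 0 ≤ α + β * p) (hq : 0 ≤ α + β * q) :
    ∫⁻ v in Ico p q, ENNReal.ofReal (α + β * v) =
      ENNReal.ofReal ((q - p) * (α + β * (p + q) / 2)) := by
  have hc : Continuous fun v : ℝ => α + β * v := by fun_prop
  rw [← ofReal_integral_eq_lintegral_ofReal]
  · congr 1
    rw [integral_Ico_eq_integral_Ioo, ← integral_Ioc_eq_integral_Ioo,
      ← intervalIntegral.integral_of_le h, intervalIntegral.integral_add (f := fun _ => α)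
        (g := fun v => β * v) (by simp) ((by fun_prop : Continuous fun v : ℝ => β * v).intervalIntegrable _ _),
      intervalIntegral.integral_const_mul]
    simp only [intervalIntegral.integral_const, integral_id, smul_eq_mul]
    ring
  · exact (hc.integrableOn_Icc (a := p) (b := q)).mono_set Ico_subset_Icc_self
  · refine (ae_restrict_iff' measurableSet_Ico).2 (Filter.Eventually.of_forall fun v hv => ?_)
    simp only [Pi.zero_apply]
    rcases le_total 0 β with hb | hb
    · nlinarith [mul_le_mul_of_nonneg_left hv.1 hb]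
    · nlinarith [mul_le_mul_of_nonpos_left hv.2.le hb]

lemma lint_inv {p q κ : ℝ} (hp : 0 < p) (hk : 0 ≤ κ) :
    ∫⁻ v in Ico p q, ENNReal.ofReal (κ / v ^ 2) ≤ ENNReal.ofReal (κ / p) := by
  rcases le_total q p with h | h
  · simp [Ico_eq_empty (not_lt.2 h)]
  have hc : ContinuousOn (fun v : ℝ => κ / v ^ 2) (Icc p q) :=
    continuousOn_const.div (by fun_prop) fun v hv => pow_ne_zero 2 (hp.trans_le hv.1).ne'
  rw [← ofReal_integral_eq_lintegral_ofReal]
  · apply ENNReal.ofReal_le_ofReal
    rw [integral_Ico_eq_integral_Ioo, ← integral_Ioc_eq_integral_Ioo,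
      ← intervalIntegral.integral_of_le h,
      intervalIntegral.integral_eq_sub_of_hasDerivAt (f := fun v => -(κ / v))]
    · have : 0 ≤ κ / q := div_nonneg hk (hp.le.trans h)
      linarith
    · intro x hx
      rw [uIcc_of_le h] at hx
      have hx0 : x ≠ 0 := (hp.trans_le hx.1).ne'
      have := ((hasDerivAt_inv hx0).const_mul κ).neg
      convert this using 1
      · ext v; simp [div_eq_mul_inv]
      · simp [div_eq_mul_inv]
    · exact (uIcc_of_le h ▸ hc).intervalIntegrable
  · exact hc.integrableOn_Icc.mono_set Ico_subset_Icc_self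
  · exact Filter.Eventually.of_forall fun v => by simp only [Pi.zero_apply]; positivity

end
end Pool.Agent.MP_3bf126_pr.H16
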