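import Pool.Agent.MP_3bf126_pr.H16.Slab

/-! The threshold rule `2 / (r + 1)` for the last part, and the passage to stopping times. -/

namespace Pool.Agent.MP_3bf126_pr.H16
open MeasureTheory ProbabilityTheory Set H40 Filter Topology
open scoped ENNReal
noncomputable section

def fb : (r : ℕ) → Rule (r + 1)
  | 0 => ⟨fun _ => 0, measurable_const, fun _ _ _ => rfl⟩
  | r + 1 => comp (2 / (r + 3)) (fun _ => 0) measurable_const fun _ => fb r

lemma th_le (r : ℕ) : (2 / (r + 3) : ℝ) ≤ 1 := by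
  rw [div_le_one (by positivity)]
  linarith [Nat.cast_nonneg (α := ℝ) r]

lemma EF_fb (r : ℕ) {v : ℝ} (hv : 0 ≤ v) : EF (fb (r + 1)) v =
    ENNReal.ofReal (2 / (r + 3) - v) + EF (fb r) v * ENNReal.ofReal (1 - 2 / (r + 3)) := by
  rw [fb, EF_comp _ _ (by positivity) (th_le r) hv, setLIntegral_const, Real.volume_Ico]

lemma fb1 (r : ℕ) {v : ℝ} (hv : 0 ≤ v) (h : v * (r + 2) ≤ 2) :
    EF (fb r) v ≤ ENNReal.ofReal (1 - v * (r + 3) / 3) := by
  induction r with
  | zero =>
    refine (lint_ind_eval (0 : Fin 1) hv).le.trans (le_of_eq ?_)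
    congr 1
    push_cast; ring
  | succ r ih =>
    have r0 := Nat.cast_nonneg (α := ℝ) r
    push_cast at h ⊢
    have h1 : v ≤ 2 / (r + 3) := by rw [le_div_iff₀ (by positivity)]; linarith
    have h2 : 0 ≤ 1 - v * (r + 3) / 3 := by linarith
    rw [EF_fb r hv]
    refine (add_le_add le_rfl (mul_le_mul_left (ih (by linarith)) _)).trans (le_of_eq ?_)
    rw [← ENNReal.ofReal_mul h2, ← ENNReal.ofReal_add (by linarith)
      (mul_nonneg h2 (sub_nonneg.2 (th_le r)))]
    congr 1
    field_simp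
    ring

lemma fb2 (r : ℕ) {v : ℝ} (hv : 0 < v) :
    EF (fb r) v ≤ ENNReal.ofReal (4 / (3 * ((r + 1) * (r + 2))) / v ^ 2) := by
  have key : ∀ r : ℕ, v * (r + 2) ≤ 2 →
      EF (fb r) v ≤ ENNReal.ofReal (4 / (3 * ((r + 1) * (r + 2))) / v ^ 2) := fun r h => by
    have r0 := Nat.cast_nonneg (α := ℝ) r
    refine (fb1 r hv.le h).trans (ENNReal.ofReal_le_ofReal ?_)
    rw [div_div, le_div_iff₀ (by positivity)]
    have h1 : 0 ≤ 1 - v * (r + 3) / 3 := by nlinarith
    have h2 : 3 * ((r + 1) * (r + 2)) * v ^ 2 ≤ 3 * (v * (r + 3)) ^ 2 := by nlinarith [sq_nonneg v]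
    refine (mul_le_mul_of_nonneg_left h2 h1).trans ?_
    have h3 : 0 ≤ v * (r + 3) := by positivity
    generalize v * (r + 3) = w at h3
    nlinarith [mul_nonneg (sq_nonneg (w - 2)) (add_nonneg h3 zero_le_one)]
  induction r with
  | zero =>
    rcases le_or_gt (v * ((0 : ℕ) + 2)) 2 with h | h
    · exact key 0 h
    · refine (lint_ind_eval (0 : Fin 1) hv.le).le.trans ?_
      rw [ENNReal.ofReal_of_nonpos (by push_cast at h; linarith)]
      exact zero_le
  | succ r ih =>
    rcases le_or_gt (v * ((r + 1 : ℕ) + 2)) 2 with h | h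
    · exact key _ h
    · push_cast at h ⊢
      have h1 : 2 / (r + 3) ≤ v := by rw [div_le_iff₀ (by positivity)]; linarith
      rw [EF_fb r hv.le, ENNReal.ofReal_of_nonpos (by linarith), zero_add]
      refine (mul_le_mul_left ih _).trans (le_of_eq ?_)
      rw [← ENNReal.ofReal_mul (by positivity)]
      congr 1
      field_simp
      ring

lemma fbA_step {r : ℕ} {c c' : ℝ} (hc : 0 ≤ c) (h : EA (fb r) ≤ ENNReal.ofReal c)
    (h' : 2 / (r + 3) * (1 + (r + 1) / (r + 3)) + (c * (1 - 2 / (r + 3)) +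
      4 / (3 * ((r + 1) * (r + 2))) / (2 / (r + 3))) ≤ c') : EA (fb (r + 1)) ≤ ENNReal.ofReal c' := by
  have h1 := sub_nonneg.2 (th_le r)
  rw [fb, EA_comp _ _ (by positivity) (th_le r), lint_lin (by positivity) (by simp) (by positivity),
    lintegral_add_left measurable_const, setLIntegral_const, Real.volume_Ico]
  refine (add_le_add le_rfl (add_le_add (mul_le_mul_left h _)
    ((setLIntegral_mono' measurableSet_Ico fun v hv => fb2 r (lt_of_lt_of_le (by positivity) hv.1)).trans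
      (lint_inv (by positivity) (by positivity))))).trans ?_
  rw [← ENNReal.ofReal_mul hc, ← ENNReal.ofReal_add (mul_nonneg hc h1) (by positivity),
    ← ENNReal.ofReal_add (mul_nonneg (by simp; positivity) (by positivity))
      (add_nonneg (mul_nonneg hc h1) (by positivity))]
  refine ENNReal.ofReal_le_ofReal (le_trans (le_of_eq ?_) h')
  push_cast
  ring

lemma fbA (r : ℕ) : EA (fb r) ≤ ENNReal.ofReal (7 / 3) := by
  have h0 : EA (fb 0) ≤ ENNReal.ofReal 1 := by simp [EA, fb, ind]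
  have h1 : EA (fb 1) ≤ ENNReal.ofReal (20 / 9) := fbA_step zero_le_one h0 (by norm_num)
  have h2 : ∀ r, EA (fb (r + 2)) ≤ ENNReal.ofReal (7 / 3) := fun r => by
    induction r with
    | zero => exact fbA_step (by norm_num) h1 (by norm_num)
    | succ r ih =>
      refine fbA_step (by norm_num) ih ?_
      have r0 := Nat.cast_nonneg (α := ℝ) r
      push_cast
      field_simp
      nlinarith [mul_nonneg r0 r0, mul_nonneg r0 (mul_nonneg r0 r0)]
  rcases r with _ | _ | r
  · exact h0.trans (ENNReal.ofReal_le_ofReal (by norm_num))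
  · exact h1.trans (ENNReal.ofReal_le_ofReal (by norm_num))
  · exact h2 r

theorem Gr.term {g : Gr} {ε : ℝ} (hε : 0 < ε) (hY : 0 < g.y g.J) (h2 : ε * g.y g.J < 2)
    {w : ℕ → ℝ} (w0 : 7 / 3 ≤ w 0)
    (w1 : ∀ j < g.J, (g.y (j + 1) - g.y j) * (1 - ε * (g.y j + g.y (j + 1)) / 6) ≤ w (j + 1))
    (w2 : 4 / (3 * ε ^ 2 * g.y g.J) < w (g.J + 1)) : g.Ev ε 1 fun _ => w := by
  have i0 : Tendsto (fun n : ℕ => (n : ℝ)⁻¹) atTop (𝓝 0) := tendsto_inv_atTop_nhds_zero_nat
  have f0 := floor_lim hε.le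
  have f1 : Tendsto (fun n : ℕ => ((⌊ε * n⌋₊ : ℝ) + 1) * (n : ℝ)⁻¹) atTop (𝓝 ε) := by
    simpa [add_mul] using f0.add i0
  have l1 := (f1.mul_const (g.y g.J)).eventually_lt_const h2
  have l2 := ((tendsto_const_nhds (x := (4 : ℝ))).div (((f0.mul f1).const_mul 3).mul_const (g.y g.J))
    (by positivity)).eventually_lt_const (u := w (g.J + 1)) (by rwa [← sq])
  have l3 := f0.eventually_const_lt hε
  have l4 : ∀ᶠ n : ℕ in atTop, (n : ℝ)⁻¹ * g.y g.J < 1 :=
    Tendsto.eventually_lt_const one_pos (by simpa using i0.mul_const (g.y g.J))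
  filter_upwards [l1, l2, l3, l4, eventually_gt_atTop 0] with n a1 a2 a3 a4 hn
  have hn' : (0 : ℝ) < n := by exact_mod_cast hn
  have a5 : ε ≤ ((⌊ε * n⌋₊ : ℝ) + 1) * (n : ℝ)⁻¹ := by
    rw [← div_eq_mul_inv, le_div_iff₀ hn']
    exact (Nat.lt_floor_add_one _).le
  obtain ⟨r, hr⟩ : ∃ r, ⌊ε * n⌋₊ = r + 1 := Nat.exists_eq_succ_of_ne_zero fun h => by simp [h] at a3
  simp only [hr, Pi.div_apply] at a1 a2 a5 ⊢
  push_cast at a1 a2 a5
  have hδ : (0 : ℝ) < (n : ℝ)⁻¹ := by positivity
  generalize (n : ℝ)⁻¹ = δ at *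
  have r0 := Nat.cast_nonneg (α := ℝ) r
  have key : ∀ j < g.J, 0 ≤ g.y j ∧ g.y j ≤ g.y (j + 1) ∧ g.y (j + 1) ≤ g.y g.J := fun j hj =>
    ⟨Gr.y_nonneg hj.le, g.mono _ _ j.le_succ hj, g.mono _ _ hj le_rfl⟩
  refine ⟨fun _ => fb r, fun q _ => ⟨fun i hi => ?_,
    (fbA r).trans (ENNReal.ofReal_le_ofReal w0), fun j hj => ?_⟩⟩
  · rcases i with _ | j
    · linarith
    · rcases (show j ≤ g.J by omega).lt_or_eq with hj | rfl
      · obtain ⟨k1, k2, k3⟩ := key j hj
        exact le_trans (mul_nonneg (by linarith) (by nlinarith)) (w1 j hj)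
      · exact le_trans (by positivity) w2.le
  · rcases hj.lt_or_eq with hj | rfl
    · obtain ⟨k1, k2, k3⟩ := key j hj
      have m1 : δ * g.y j ≤ δ * g.y (j + 1) := by gcongr
      have m2 : δ * g.y (j + 1) ≤ δ * g.y g.J := by gcongr
      have m0 : 0 ≤ δ * g.y j := by positivity
      rw [Gr.EB, Gr.z_le hj.le, Gr.z_le hj]
      refine (setLIntegral_mono' measurableSet_Ico
        (g := fun v => ENNReal.ofReal (1 + -((r + 3) / 3) * v)) fun v hv =>
        (fb1 r (m0.trans hv.1) (by nlinarith [hv.2])).trans (le_of_eq (by ring_nf))).trans ?_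
      rw [lint_lin m1 (by nlinarith) (by nlinarith)]
      refine ENNReal.ofReal_le_ofReal (le_trans ?_ (mul_le_mul_of_nonneg_left (w1 j hj) hδ.le))
      rw [← mul_sub, mul_assoc]
      refine mul_le_mul_of_nonneg_left (mul_le_mul_of_nonneg_left ?_ (by linarith)) hδ.le
      nlinarith [mul_nonneg (show 0 ≤ (r + 3) * δ - ε by nlinarith) (add_nonneg k1 (k1.trans k2))]
    · rw [Gr.EB, Gr.z_le le_rfl, Gr.z_top]
      refine ((setLIntegral_mono' measurableSet_Ico fun v hv =>
        fb2 r (lt_of_lt_of_le (by positivity) hv.1)).trans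
        (lint_inv (by positivity) (by positivity))).trans (ENNReal.ofReal_le_ofReal
          (le_trans (le_of_eq ?_) (mul_le_mul_of_nonneg_left a2.le hδ.le)))
      field_simp
      ring

theorem transfer {n : ℕ} (T : Rule n) {c : ℝ} (hc : 0 ≤ c) (h : EA T ≤ ENNReal.ofReal c) {Ω : Type*}
    [MeasurableSpace Ω] (P : Measure Ω) [IsProbabilityMeasure P] (s : Fin n → Ω → ℝ)
    (hs : ∀ i, StronglyMeasurable (s i)) (hi : iIndepFun s P)
    (hU : ∀ i, P.map (s i) = volume.restrict (Icc 0 1)) : ∃ τ : Ω → Fin n, Measurable τ ∧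
      IsStoppingTime (Filtration.natural s hs) (fun ω => (τ ω : WithTop (Fin n))) ∧
      ∫ ω, (1 + ((Finset.univ.filter fun j => s (τ ω) ω < s j ω).card : ℝ)) ∂P ≤ c := by
  have hX : Measurable fun ω i => s i ω := measurable_pi_lambda _ fun i => (hs i).measurable
  have hP : MeasurePreserving (fun ω i => s i ω) P (Pn n) := ⟨hX, by
    rw [hi.map_fun_eq_pi_map fun i => (hs i).measurable.aemeasurable]
    simp only [hU]; rfl⟩
  have h1 : MeasurePreserving (fun x : ℝ => 1 - x) U U := by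
    have := (Measure.measurePreserving_sub_left volume (1 : ℝ)).restrict_preimage
      (measurableSet_Icc (a := (0 : ℝ)) (b := 1))
    simpa [U] using this
  have h2 := (measurePreserving_pi (fun _ : Fin n => U) (fun _ => U) fun _ => h1).comp hP
  have hm : Measurable fun x : Fin n → ℝ => 1 + ∑ j, ind (x j) (x (T.τ x)) :=
    measurable_const.add
      (Finset.measurable_sum _ fun j _ => meas_ind (measurable_pi_apply j) (meas_sel T))
  refine ⟨fun ω => T.τ fun i => 1 - s i ω, T.meas.comp h2.measurable, fun k => ?_, ?_⟩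
  · have e : {ω | ((T.τ fun i => 1 - s i ω : Fin n) : WithTop (Fin n)) ≤ k} =
        (fun ω i => if i ≤ k then 1 - s i ω else 0) ⁻¹' (T.τ ⁻¹' Iic k) := by
      ext ω
      simp only [mem_ofPred_eq, WithTop.coe_le_coe, mem_preimage, mem_Iic]
      constructor
      · intro a
        rwa [T.adapt (fun i => 1 - s i ω) _ fun i hi => (if_pos (hi.trans a)).symm]
      · intro a
        rwa [T.adapt _ (fun i => 1 - s i ω) fun i hi => if_pos (hi.trans a)]
    rw [e]
    refine (?_ : Measurable[Filtration.natural s hs k] _) (T.meas measurableSet_Iic)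
    refine (@measurable_pi_iff _ _ _ (Filtration.natural s hs k) _ _).2 fun i => ?_
    split_ifs with hik
    · exact measurable_const.sub (((Filtration.stronglyAdapted_natural hs i).mono
        ((Filtration.natural s hs).mono hik)).measurable)
    · exact measurable_const
  · have e : ∀ ω, (1 + ((Finset.univ.filter fun j => s (T.τ fun i => 1 - s i ω) ω < s j ω).card : ℝ)) =
        (1 + ∑ j, ind (1 - s j ω) (1 - s (T.τ fun i => 1 - s i ω) ω)).toReal := fun ω => by
      simp only [ind, sub_lt_sub_iff_left, Finset.sum_boole]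
      rw [ENNReal.toReal_add (by simp) (by simp), ENNReal.toReal_natCast, ENNReal.toReal_one]
    have ht : ∫⁻ ω, (1 + ∑ j, ind (1 - s j ω) (1 - s (T.τ fun i => 1 - s i ω) ω)) ∂P ≤
        ENNReal.ofReal c := (h2.lintegral_comp hm).le.trans h
    simp only [e]
    exact (integral_toReal (hm.comp h2.measurable).aemeasurable
      (ae_lt_top (hm.comp h2.measurable) (ne_top_of_le_ne_top ENNReal.ofReal_ne_top ht))).le.trans
      (ENNReal.toReal_le_of_le_ofReal hc ht)

end
end Pool.Agent.MP_3bf126_pr.H16
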